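import Pool.Agent.P.MP_029dcd_co.Lattice

/-! Definitions shared by all layers of the proof of the cubic curve theorem.
A point `p = (t, s)` of the primal plane is also the dual line `y = t x + s`;
`On p z` says that the dual line `p` passes through the dual point `z = (x, y)`. -/

set_option autoImplicit false

namespace ECub

open CubicStab MeasureTheory Filter Topology Finset
open scoped ENNReal

/-! ### Finite triple systems -/

/-- Three disjoint families of at most `N` points with distinct first coordinates, at most `k`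
on a line, and a set `T` of collinear triples, at most one on each line. -/
structure TS (k N : ℕ) (P : Fin 3 → Finset Pt) (T : Finset (Fin 3 → Pt)) : Prop where
  card_le : ∀ i, (P i).card ≤ N
  disj : ∀ i j, i ≠ j → Disjoint (P i) (P j)
  inj : ∀ i j, ∀ p ∈ P i, ∀ q ∈ P j, p.1 = q.1 → p = q
  few : ∀ (v : Pt) (S : Finset Pt), (∀ p ∈ S, ∃ i, p ∈ P i) → (∀ p ∈ S, On p v) → S.card ≤ k
  mem : ∀ τ ∈ T, ∀ i, τ i ∈ P i
  col : ∀ τ ∈ T, ∃ v, ∀ i, On (τ i) v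
  one : ∀ τ ∈ T, ∀ τ' ∈ T, ∀ v, (∀ i, On (τ i) v) → (∀ i, On (τ' i) v) → τ = τ'

open Classical in
/-- the triples covered by the curve `f = 0` -/
noncomputable def cov (f : Pl) (T : Finset (Fin 3 → Pt)) : Finset (Fin 3 → Pt) :=
  T.filter fun τ => ∀ i, ev f (τ i) = 0

/-- some cubic covers at least `x` triples -/
def Cub (x : ℝ) (T : Finset (Fin 3 → Pt)) : Prop :=
  ∃ f : Pl, f ≠ 0 ∧ f.totalDegree ≤ 3 ∧ x ≤ ((cov f T).card : ℝ)

/-- the central slopes of the three families in standard position -/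
def ctr : Fin 3 → ℝ := ![1, -1, 0]

/-- standard position -/
def Std (P : Fin 3 → Finset Pt) : Prop := ∀ i, ∀ p ∈ P i, |p.1 - ctr i| ≤ 1 / 100

/-- The theorem for triple systems in standard position. -/
def ThmI : Prop :=
  ∀ (k : ℕ) (γ : ℝ), 0 < γ → ∃ η : ℝ, 0 < η ∧ ∃ N0 : ℕ, ∀ N, N0 ≤ N →
    ∀ (P : Fin 3 → Finset Pt) (T : Finset (Fin 3 → Pt)), TS k N P T → Std P →
      γ * (N : ℝ) ^ 2 ≤ T.card → Cub (η * (N : ℝ) ^ 2) T

/-! ### Boxes and averages -/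

abbrev Z2 := ℤ × ℤ
/-- a label: a cell and an index in the list of lines visiting the cell -/
abbrev Lb := Z2 × ℕ

/-- the square of radius `u` around `y` -/
noncomputable def box (y : Z2) (u : ℕ) : Finset Z2 :=
  Icc (y.1 - u) (y.1 + u) ×ˢ Icc (y.2 - u) (y.2 + u)

/-- sums of `f` over all rectangles inside `[-A u, A u]^2` are `area * c + o(u^2)` -/
def BoxLim (f : Z2 → ℝ) (c : ℝ) : Prop :=
  ∀ A : ℕ, ∀ ε : ℝ, 0 < ε → ∀ᶠ u : ℕ in atTop, ∀ a1 a2 b1 b2 : ℤ,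
    -((A : ℤ) * u) ≤ a1 → a1 ≤ a2 → a2 ≤ (A : ℤ) * u →
    -((A : ℤ) * u) ≤ b1 → b1 ≤ b2 → b2 ≤ (A : ℤ) * u →
    |(∑ w ∈ Ico a1 a2 ×ˢ Ico b1 b2, f w) - ((a2 - a1 : ℤ) : ℝ) * ((b2 - b1 : ℤ) : ℝ) * c|
      ≤ ε * (u : ℝ) ^ 2

/-- sums of `f` over all intervals inside `[-A u, A u]` are `length * c + o(u)` -/
def IntLim (f : ℤ → ℝ) (c : ℝ) : Prop :=
  ∀ A : ℕ, ∀ ε : ℝ, 0 < ε → ∀ᶠ u : ℕ in atTop, ∀ a1 a2 : ℤ,
    -((A : ℤ) * u) ≤ a1 → a1 ≤ a2 → a2 ≤ (A : ℤ) * u →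
    |(∑ a ∈ Ico a1 a2, f a) - ((a2 - a1 : ℤ) : ℝ) * c| ≤ ε * (u : ℝ)

/-- ergodicity of a measure for an action of `ℤ × ℤ` -/
def ErgM {α : Type*} [MeasurableSpace α] (T : Z2 → α → α) (μ : Measure α) : Prop :=
  ∀ E : Set α, MeasurableSet E → (∀ w, T w ⁻¹' E = E) → μ E = 0 ∨ μ Eᶜ = 0

/-- a measure preserving action of `ℤ × ℤ` on a standard probability space -/
structure Dyn where
  Ω : Type
  [ms : MeasurableSpace Ω]
  [sb : StandardBorelSpace Ω]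
  μ : Measure Ω
  [prob : IsProbabilityMeasure μ]
  T : Z2 → Ω → Ω
  T_zero : ∀ ω, T 0 ω = ω
  T_add : ∀ a b ω, T (a + b) ω = T a (T b ω)
  mp : ∀ a, MeasurePreserving (T a) μ μ

attribute [instance] Dyn.ms Dyn.sb Dyn.prob

def Dyn.Erg (D : Dyn) : Prop := ErgM D.T D.μ

/-- `π` is a factor map from `D'` onto `D` -/
structure Dyn.Fac (D' D : Dyn) (π : D'.Ω → D.Ω) : Prop where
  mp : MeasurePreserving π D'.μ D.μ
  comm : ∀ w ω, π (D'.T w ω) = D.T w (π ω)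

/-- the shift on configurations -/
def sh {Y : Type*} (y : Z2) (x : Z2 → Y) : Z2 → Y := fun w => x (y + w)

/-! ### Galaxies: countable line configurations with a cell structure -/

/-- `g w` lines visit the cell `w`; the label with cell `w` and index `j < g w` is the `j`-th of them. -/
structure Gal where
  g : Z2 → ℕ
  fam : Lb → Fin 3
  can : Lb → Bool
  same : Lb → Lb → Bool
  cr : Z2 → ℕ → ℕ → Bool
  tp : Z2 → Bool
  tl : Z2 → Fin 3 → ℕ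
  t : Lb → ℝ
  s : Lb → ℝ
  v : Z2 → ℝ × ℝ

/-- the coordinate of a cell that parametrises the lines of family `i` -/
def idx (i : Fin 3) (w : Z2) : ℤ := if i = 1 then w.1 else w.2
/-- the other coordinate -/
def oth (i : Fin 3) (w : Z2) : ℤ := if i = 1 then w.2 else w.1

namespace Gal

variable (G : Gal)

def valid (l : Lb) : Prop := l.2 < G.g l.1

/-- the label of the `i`-th line of the triple point in the cell `w` -/
def tlab (w : Z2) (i : Fin 3) : Lb := (w, G.tl w i)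

/-- canonical label of family `i` -/
def Can (i : Fin 3) (l : Lb) : Prop := G.valid l ∧ G.fam l = i ∧ G.can l = true

open Classical in
/-- the canonical label of the line of `l` with index `b` -/
noncomputable def at' (l : Lb) (b : ℤ) : Lb :=
  if h : ∃ l', G.valid l ∧ G.Can (G.fam l) l' ∧ G.same l l' = true ∧ idx (G.fam l) l'.1 = b
  then h.choose else l

/-- the representative of the line of `l` -/
noncomputable def rep (l : Lb) : Lb := G.at' l 0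

/-- the lines of family `i`, as canonical labels of index zero -/
def Ln (i : Fin 3) (l : Lb) : Prop := G.Can i l ∧ idx i l.1 = 0

open Classical in
/-- the lines of family `i` with offset at most `ρ` -/
noncomputable def lns (i : Fin 3) (ρ : ℝ) : Finset Lb :=
  if h : {l | G.Ln i l ∧ |G.s l| ≤ ρ}.Finite then h.toFinset else ∅

/-- size of a cell -/
def cs (w : Z2) : ℝ := (G.v w).2 - (G.v (w - (1, 1))).2

/-- the length scale of the box of radius `u` -/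
def R (u : ℕ) : ℝ := (G.v ((u : ℤ), (u : ℤ))).2 - (G.v (-(u : ℤ), -(u : ℤ))).2

/-- quasi-symmetry of the vertex map at the centre `y` and scale `n` -/
def QS (y : Z2) (n : ℕ) (C : ℝ) : Prop :=
  ∀ w1 ∈ box y (3 * n), ∀ w2 ∈ box y (3 * n), ∀ w3 ∈ box y (3 * n), ∀ w4 ∈ box y (3 * n),
    (n : ℤ) ≤ max |w1.1 - w2.1| |w1.2 - w2.2| →
    ‖G.v w3 - G.v w4‖ ≤ C * ‖G.v w1 - G.v w2‖

/-- at most `M` different lines have the family, slope and offset of `l` -/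
def MultLE (l : Lb) (M : ℕ) : Prop :=
  ∀ S : Finset Lb, (∀ l' ∈ S, G.valid l' ∧ G.fam l' = G.fam l ∧ G.t l' = G.t l ∧ G.s l' = G.s l) →
    (∀ a ∈ S, ∀ b ∈ S, G.same a b = true → a = b) → S.card ≤ M

/-- a function on labels that only depends on the line -/
def LineC {β : Type*} (F : Lb → β) : Prop :=
  ∀ l l', G.valid l → G.valid l' → G.same l l' = true → F l = F l'

open Classical in
/-- the triples of a realisation `r` of the labels, for the triple points in `C` -/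
noncomputable def trip (r : Lb → Pt) (C : Finset Z2) : Finset (Fin 3 → Pt) :=
  (C.filter fun w => G.tp w = true).image fun w i => r (G.tlab w i)

/-- For arbitrarily large boxes the combinatorial structure has a realisation by true lines
in which no cubic covers a positive proportion of the triples. -/
def NC (k : ℕ) : Prop :=
  ∀ η : ℝ, 0 < η → ∀ u0 : ℕ, ∃ u, u0 ≤ u ∧ ∃ r : Lb → Pt,
    (∀ l l', G.valid l → G.valid l' → l.1 ∈ box 0 u → l'.1 ∈ box 0 u →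
      (r l = r l' ↔ G.same l l' = true) ∧ ((r l).1 = (r l').1 → r l = r l')) ∧
    (∀ (z : Pt) (S : Finset Pt), (∀ p ∈ S, ∃ l, G.valid l ∧ l.1 ∈ box 0 u ∧ p = r l) →
      (∀ p ∈ S, On p z) → S.card ≤ k) ∧
    (∀ w ∈ box 0 u, G.tp w = true → ∃ z, ∀ i, On (r (G.tlab w i)) z) ∧
    (∀ w ∈ box 0 u, ∀ w' ∈ box 0 u, G.tp w = true → G.tp w' = true → ∀ z,
      (∀ i, On (r (G.tlab w i)) z) → (∀ i, On (r (G.tlab w' i)) z) → w = w') ∧
    ¬ Cub (η * (u : ℝ) ^ 2) (G.trip r (box 0 u))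

/-- the axioms of a galaxy -/
structure Ax (k : ℕ) (C : ℝ) : Prop where
  same_refl : ∀ l, G.valid l → G.same l l = true
  same_symm : ∀ l l', G.valid l → G.valid l' → G.same l l' = true → G.same l' l = true
  same_trans : ∀ l l' l'', G.valid l → G.valid l' → G.valid l'' → G.same l l' = true →
    G.same l' l'' = true → G.same l l'' = true
  same_cell : ∀ w j j', G.valid (w, j) → G.valid (w, j') → G.same (w, j) (w, j') = true → j = j'
  same_fam : G.LineC G.fam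
  same_t : G.LineC G.t
  same_s : G.LineC G.s
  slope : ∀ l, G.valid l → |G.t l - ctr (G.fam l)| ≤ 1 / 100
  can_ex : ∀ l, G.valid l → ∀ b : ℤ,
    ∃ l', G.Can (G.fam l) l' ∧ G.same l l' = true ∧ idx (G.fam l) l'.1 = b
  can_uniq : ∀ i l l', G.Can i l → G.Can i l' → G.same l l' = true → idx i l.1 = idx i l'.1 →
    l = l'
  cr_valid : ∀ w j j', G.cr w j j' = true → G.valid (w, j) ∧ G.valid (w, j') ∧ j ≠ j'
  cr_symm : ∀ w j j', G.cr w j j' = true → G.cr w j' j = true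
  cr_uniq : ∀ w j j' w' m m', G.cr w j j' = true → G.cr w' m m' = true →
    G.same (w, j) (w', m) = true → G.same (w, j') (w', m') = true → w = w'
  cr_ex : ∀ l l', G.valid l → G.valid l' → G.t l ≠ G.t l' →
    ∃ w j j', G.cr w j j' = true ∧ G.same l (w, j) = true ∧ G.same l' (w, j') = true
  tp_can : ∀ w, G.tp w = true → ∀ i, G.Can i (G.tlab w i)
  tp_cr : ∀ w, G.tp w = true → ∀ i i', i ≠ i' → G.cr w (G.tl w i) (G.tl w i') = true
  tp_on : ∀ w, G.tp w = true → ∀ i,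
    (G.v w).2 = G.t (G.tlab w i) * (G.v w).1 + G.s (G.tlab w i)
  v_zero : G.v 0 = 0
  cone1 : ∀ w, |((G.v (w + (1, 0))).2 - (G.v w).2) - ((G.v w).1 - (G.v (w + (1, 0))).1)|
    ≤ 1 / 100 * ((G.v w).1 - (G.v (w + (1, 0))).1)
  cone2 : ∀ w, |((G.v (w + (0, 1))).2 - (G.v w).2) - ((G.v (w + (0, 1))).1 - (G.v w).1)|
    ≤ 1 / 100 * ((G.v (w + (0, 1))).1 - (G.v w).1)
  near : ∀ l, G.valid l → |G.t l * (G.v l.1).1 + G.s l - (G.v l.1).2| ≤ 6 * G.cs l.1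
  near_cr : ∀ w j j', G.cr w j j' = true →
    |(G.s (w, j') - G.s (w, j)) - (G.t (w, j) - G.t (w, j')) * (G.v w).1|
      ≤ 2 * G.cs w * |G.t (w, j) - G.t (w, j')|
  qs : ∀ A : ℕ, ∀ ε : ℝ, 0 < ε → ∀ᶠ u : ℕ in atTop, ∀ y ∈ box 0 (A * u), ∀ n : ℕ,
    ε * u ≤ n → n ≤ A * u → G.QS y n C
  nondeg : ∃ w, G.v w ≠ 0
  nc : G.NC k

/-- `G'` is `G` seen from the cell `w`, in a new unit of length -/
structure Shift (G' : Gal) (w : Z2) : Prop where
  g : ∀ x, G'.g x = G.g (w + x)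
  fam : ∀ x j, G'.fam (x, j) = G.fam (w + x, j)
  can : ∀ x j, G'.can (x, j) = G.can (w + x, j)
  same : ∀ x j x' j', G'.same (x, j) (x', j') = G.same (w + x, j) (w + x', j')
  cr : ∀ x j j', G'.cr x j j' = G.cr (w + x) j j'
  tp : ∀ x, G'.tp x = G.tp (w + x)
  tl : ∀ x i, G'.tl x i = G.tl (w + x) i
  t : ∀ x j, G'.t (x, j) = G.t (w + x, j)
  geo : ∃ c : ℝ, 0 < c ∧ (∀ x, G'.v x = c • (G.v (w + x) - G.v w)) ∧
    ∀ x j, G.valid (w + x, j) →
      G'.s (x, j) = c * (G.s (w + x, j) + G.t (w + x, j) * (G.v w).1 - (G.v w).2)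

open Classical in
/-- displacement from the canonical label `l` to the next canonical label of its line -/
noncomputable def disp (l : Lb) : ℝ≥0∞ :=
  ∑' l' : Lb, if G.Can (G.fam l) l ∧ G.Can (G.fam l) l' ∧
      G.same l l' = true ∧ idx (G.fam l) l'.1 = idx (G.fam l) l.1 + 1
    then ((oth (G.fam l) l'.1 - oth (G.fam l) l.1).natAbs : ℝ≥0∞) else 0

/-- number of crossing pairs in the cell `w` -/
noncomputable def ncr (w : Z2) : ℝ≥0∞ :=
  ∑' p : ℕ × ℕ, if G.cr w p.1 p.2 = true then (1 : ℝ≥0∞) else 0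

/-- distance from the vertex `w` to the four vertices `u` steps away -/
noncomputable def sepr (w : Z2) (u : ℕ) : ℝ :=
  min (min ‖G.v (w + ((u : ℤ), 0)) - G.v w‖ ‖G.v (w - ((u : ℤ), 0)) - G.v w‖)
    (min ‖G.v (w + (0, (u : ℤ))) - G.v w‖ ‖G.v (w - (0, (u : ℤ))) - G.v w‖)

open Classical in
/-- count regularity inside the box of radius `m` around `y`, with additive error `δ` -/
def CR (y : Z2) (m : ℕ) (τ K δ : ℝ) : Prop :=
  ∀ a1 a2 b1 b2 : ℤ, y.1 - m ≤ a1 → a1 ≤ a2 → a2 ≤ y.1 + m → y.2 - m ≤ b1 → b1 ≤ b2 →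
    b2 ≤ y.2 + m →
    τ * (((a2 - a1 : ℤ) : ℝ) * ((b2 - b1 : ℤ) : ℝ)) - δ ≤
      (((Ico a1 a2 ×ˢ Ico b1 b2).filter fun w => G.tp w = true).card : ℝ) ∧
    (∑ w ∈ Ico a1 a2 ×ˢ Ico b1 b2, (G.g w : ℝ)) ≤
      K * (((a2 - a1 : ℤ) : ℝ) * ((b2 - b1 : ℤ) : ℝ)) + δ

/-- the vertex map is asymptotically the linear map `Λ` -/
def Lin (Λ : (ℝ × ℝ) ≃L[ℝ] (ℝ × ℝ)) : Prop :=
  ∀ A : ℕ, ∀ ε : ℝ, 0 < ε → ∀ᶠ u : ℕ in atTop, 0 < G.R u ∧ ∀ w ∈ box 0 (A * u),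
    ‖G.v w - G.R u • Λ ((w.1 : ℝ) / u, (w.2 : ℝ) / u)‖ ≤ ε * G.R u

end Gal

/-- the cell `w` is inside the rectangle of a finite configuration -/
def InR (P : Fin 3 → Finset Pt) (w : Z2) : Prop :=
  1 ≤ w.1 ∧ w.1 < (P 0).card ∧ 1 ≤ w.2 ∧ w.2 < (P 1).card

/-- the cells of a finite configuration -/
noncomputable def rect (P : Fin 3 → Finset Pt) : Finset Z2 :=
  Ico (0 : ℤ) (P 0).card ×ˢ Ico (0 : ℤ) (P 1).card

/-- The cell structure `G` of a finite triple system in standard position: `lab` gives the line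
of a label and `cell` the cell of a triple. -/
structure FinAx (N : ℕ) (P : Fin 3 → Finset Pt) (T : Finset (Fin 3 → Pt)) (G : Gal)
    (lab : Lb → Pt) (cell : (Fin 3 → Pt) → Z2) : Prop where
  lab_mem : ∀ l, G.valid l → lab l ∈ P (G.fam l)
  lab_t : ∀ l, G.valid l → G.t l = (lab l).1
  lab_s : ∀ l, G.valid l → G.s l = (lab l).2
  same_iff : ∀ l l', G.valid l → G.valid l' → (G.same l l' = true ↔ lab l = lab l')
  same_cell : ∀ w j j', G.valid (w, j) → G.valid (w, j') → lab (w, j) = lab (w, j') → j = j'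
  can_uniq : ∀ i l l', G.Can i l → G.Can i l' → G.same l l' = true → idx i l.1 = idx i l'.1 →
    l = l'
  cr_valid : ∀ w j j', G.cr w j j' = true → G.valid (w, j) ∧ G.valid (w, j') ∧ j ≠ j'
  cr_symm : ∀ w j j', G.cr w j j' = true → G.cr w j' j = true
  cr_uniq : ∀ w j j' w' m m', G.cr w j j' = true → G.cr w' m m' = true →
    G.same (w, j) (w', m) = true → G.same (w, j') (w', m') = true → w = w'
  tp_cell : ∀ w, G.tp w = true → ∃ τ ∈ T, cell τ = w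
  cell_tp : ∀ τ ∈ T, G.tp (cell τ) = true ∧ cell τ ∈ rect P ∧
    ∀ i, lab (G.tlab (cell τ) i) = τ i
  cell_inj : ∀ τ ∈ T, ∀ τ' ∈ T, cell τ = cell τ' → τ = τ'
  tp_can : ∀ w, G.tp w = true → ∀ i, G.Can i (G.tlab w i)
  tp_cr : ∀ w, G.tp w = true → ∀ i i', i ≠ i' → G.cr w (G.tl w i) (G.tl w i') = true
  tp_on : ∀ w, G.tp w = true → ∀ i,
    (G.v w).2 = G.t (G.tlab w i) * (G.v w).1 + G.s (G.tlab w i)
  cone1 : ∀ w, InR P w → InR P (w + (1, 0)) →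
    |((G.v (w + (1, 0))).2 - (G.v w).2) - ((G.v w).1 - (G.v (w + (1, 0))).1)|
      ≤ 1 / 100 * ((G.v w).1 - (G.v (w + (1, 0))).1)
  cone2 : ∀ w, InR P w → InR P (w + (0, 1)) →
    |((G.v (w + (0, 1))).2 - (G.v w).2) - ((G.v (w + (0, 1))).1 - (G.v w).1)|
      ≤ 1 / 100 * ((G.v (w + (0, 1))).1 - (G.v w).1)
  near : ∀ l, G.valid l → InR P l.1 →
    |G.t l * (G.v l.1).1 + G.s l - (G.v l.1).2| ≤ 6 * G.cs l.1
  near_cr : ∀ w j j', InR P w → G.cr w j j' = true →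
    |(G.s (w, j') - G.s (w, j)) - (G.t (w, j) - G.t (w, j')) * (G.v w).1|
      ≤ 2 * G.cs w * |G.t (w, j) - G.t (w, j')|
  can_loc : ∀ l, G.valid l → ∀ (w : Z2) (u : ℕ), (∀ x ∈ box w (u + 1), InR P x) →
    100 * |G.t l * (G.v w).1 + G.s l - (G.v w).2| < G.sepr w u →
    ∃ l', G.Can (G.fam l) l' ∧ G.same l l' = true ∧
      idx (G.fam l) l'.1 = idx (G.fam l) w ∧ l'.1 ∈ box w (u + 1)
  cr_loc : ∀ l l', G.valid l → G.valid l' → G.t l ≠ G.t l' → ∀ z : Pt, On (lab l) z →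
    On (lab l') z → ∀ (w : Z2) (u : ℕ), (∀ x ∈ box w (u + 1), InR P x) →
    100 * ‖z - G.v w‖ < G.sepr w u →
    ∃ w' ∈ box w (u + 1), ∃ j j', G.cr w' j j' = true ∧ G.same l (w', j) = true ∧
      G.same l' (w', j') = true
  sum_g : ∑ w ∈ rect P, G.g w ≤ 100 * N ^ 2
  sum_cr : ∑ w ∈ rect P, G.ncr w ≤ 100 * (N : ℝ≥0∞) ^ 2
  sum_disp : ∑ w ∈ rect P, ∑' j : ℕ, G.disp (w, j) ≤ 100 * (N : ℝ≥0∞) ^ 2
  vis : ∀ i : Fin 3, i ≠ 2 → ∀ (p : Pt) (n : ℕ) (S : Finset (Fin 3 → Pt)), S ⊆ T →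
    (∀ τ ∈ S, τ i = p) → (∀ τ ∈ S, ∀ τ' ∈ S, τ ≠ τ' →
      (n : ℤ) ≤ max |(cell τ).1 - (cell τ').1| |(cell τ).2 - (cell τ').2|) →
    (S.card - 1) * n ≤ 2 * N

/-- measurability of a random galaxy -/
structure GalMeas {Ω : Type} [MeasurableSpace Ω] (Γ : Ω → Gal) : Prop where
  g : ∀ w, Measurable fun ω => (Γ ω).g w
  fam : ∀ l, Measurable fun ω => (Γ ω).fam l
  can : ∀ l, Measurable fun ω => (Γ ω).can l
  same : ∀ l l', Measurable fun ω => (Γ ω).same l l'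
  cr : ∀ w j j', Measurable fun ω => (Γ ω).cr w j j'
  tp : ∀ w, Measurable fun ω => (Γ ω).tp w
  tl : ∀ w i, Measurable fun ω => (Γ ω).tl w i
  t : ∀ l, Measurable fun ω => (Γ ω).t l
  s : ∀ l, Measurable fun ω => (Γ ω).s l
  v : ∀ w, Measurable fun ω => (Γ ω).v w

/-- a stationary random galaxy -/
structure Sys extends Dyn where
  k : ℕ
  C : ℝ
  Γ : Ω → Gal
  meas : GalMeas Γ
  shift : ∀ ω w, (Γ ω).Shift (Γ (T w ω)) w
  ax : ∀ ω, (Γ ω).Ax k C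
  int : ∃ F : Ω → ℝ≥0∞, Measurable F ∧ ∫⁻ ω, F ω ∂μ < ∞ ∧ ∀ ω,
    ((Γ ω).g 0 : ℝ≥0∞) ≤ F ω ∧ (Γ ω).ncr 0 ≤ F ω ∧ ∑' j : ℕ, (Γ ω).disp (0, j) ≤ F ω

namespace Sys

variable (S : Sys)

/-- the pull-back of a system along a factor map -/
noncomputable def pull (D : Dyn) (π : D.Ω → S.Ω) (h : D.Fac S.toDyn π) : Sys where
  toDyn := D
  k := S.k
  C := S.C
  Γ := fun ω => S.Γ (π ω)
  meas :=
    { g := fun w => (S.meas.g w).comp h.mp.measurable
      fam := fun l => (S.meas.fam l).comp h.mp.measurable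
      can := fun l => (S.meas.can l).comp h.mp.measurable
      same := fun l l' => (S.meas.same l l').comp h.mp.measurable
      cr := fun w j j' => (S.meas.cr w j j').comp h.mp.measurable
      tp := fun w => (S.meas.tp w).comp h.mp.measurable
      tl := fun w i => (S.meas.tl w i).comp h.mp.measurable
      t := fun l => (S.meas.t l).comp h.mp.measurable
      s := fun l => (S.meas.s l).comp h.mp.measurable
      v := fun w => (S.meas.v w).comp h.mp.measurable }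
  shift := fun ω w => by rw [h.comm]; exact S.shift (π ω) w
  ax := fun ω => S.ax (π ω)
  int := by
    obtain ⟨F, hF, hi, hb⟩ := S.int
    exact ⟨fun ω => F (π ω), hF.comp h.mp.measurable,
      lt_of_le_of_lt (h.mp.lintegral_comp hF).le hi, fun ω => hb (π ω)⟩

/-- the value of a function on `Ω × ℕ` at the label `l` of the galaxy of `ω` -/
def ev {β : Type*} (F : S.Ω × ℕ → β) (ω : S.Ω) (l : Lb) : β := F (S.T l.1 ω, l.2)

/-- a function of labels that almost surely only depends on the line -/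
def LineFn {β : Type*} (F : S.Ω × ℕ → β) : Prop := ∀ᵐ ω ∂S.μ, (S.Γ ω).LineC (S.ev F ω)

/-- a measurable set of lines -/
def LineSet (A : Set (S.Ω × ℕ)) : Prop := MeasurableSet A ∧ S.LineFn fun x => x ∈ A

/-- the slope of a label of the cell `0` -/
def sl (x : S.Ω × ℕ) : ℝ := (S.Γ x.1).t (0, x.2)

/-- the finite measure on canonical labels of family `i` in the cell `0` -/
noncomputable def mh (i : Fin 3) : Measure (S.Ω × ℕ) :=
  (S.μ.prod Measure.count).restrict {x | (S.Γ x.1).Can i (0, x.2)}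

/-- the finite measure on crossing pairs of families `i`, `j` in the cell `0` with different
slopes -/
noncomputable def pm (i j : Fin 3) : Measure (S.Ω × ℕ × ℕ) :=
  (S.μ.prod (Measure.count.prod Measure.count)).restrict
    {x | (S.Γ x.1).cr 0 x.2.1 x.2.2 = true ∧ (S.Γ x.1).fam (0, x.2.1) = i ∧
      (S.Γ x.1).fam (0, x.2.2) = j ∧ (S.Γ x.1).t (0, x.2.1) ≠ (S.Γ x.1).t (0, x.2.2)}

/-- the `i`-th label of the triple point in the cell `0` -/
def tx (ω : S.Ω) (i : Fin 3) : S.Ω × ℕ := (ω, (S.Γ ω).tl 0 i)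

/-- the triple points all of whose lines are in `A` -/
def TA (A : Set (S.Ω × ℕ)) : Set S.Ω := {ω | (S.Γ ω).tp 0 = true ∧ ∀ i, S.tx ω i ∈ A}

/-- asymptotic linearity -/
structure Lin (Λ : (ℝ × ℝ) ≃L[ℝ] (ℝ × ℝ)) : Prop where
  e1 : (Λ (1, 0)).1 < 0 ∧ |(Λ (1, 0)).2 + (Λ (1, 0)).1| ≤ 1 / 100 * |(Λ (1, 0)).1|
  e2 : 0 < (Λ (0, 1)).1 ∧ |(Λ (0, 1)).2 - (Λ (0, 1)).1| ≤ 1 / 100 * |(Λ (0, 1)).1|
  lin : ∀ᵐ ω ∂S.μ, (S.Γ ω).Lin Λ

end Sys

/-! ### Marks -/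

/-- marks of lines; coordinate `0` is the constant one and coordinate `1` the slope -/
abbrev E (n : ℕ) := Fin (n + 2) → ℝ
/-- a mark and an offset -/
abbrev H (n : ℕ) := E n × ℝ
/-- mark, macroscopic offset and value of the deformation -/
abbrev Dt (n : ℕ) := E n × ℝ × H n

/-- the coefficients of the linear relation between three concurrent lines with slopes `t` -/
def co (t : Fin 3 → ℝ) : Fin 3 → ℝ := ![t 1 - t 2, t 2 - t 0, t 0 - t 1]

/-- the trivial deformation given by a linear map -/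
def triv {n : ℕ} (γ : H n →ₗ[ℝ] H n) (f : H n) : H n := γ f - (γ f).1 0 • f

/-- the linearised concurrency relation at a triple point with abscissa `x0` and marks `x` -/
def XiRel {n : ℕ} (x : Fin 3 → E n) (x0 : ℝ) (u : Fin 3 → H n) : Prop :=
  (∀ k, (x 0 1 - x 1 1) * ∑ i, co (fun i => x i 1) i * (u i).1 k
      = (x 0 k - x 1 k) * ∑ i, co (fun i => x i 1) i * (u i).1 1) ∧
    ∑ i, co (fun i => x i 1) i * (u i).2 = -x0 * ∑ i, co (fun i => x i 1) i * (u i).1 1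

/-- all coordinates are algebraic numbers -/
def IsAlg {n : ℕ} (f : H n) : Prop := (∀ k, IsAlgebraic ℚ (f.1 k)) ∧ IsAlgebraic ℚ f.2

/-- laws of the marks of lines (`m`) and of triple points (`κ`) -/
structure MS0 {n : ℕ} (m : Fin 3 → Measure (E n)) (κ : Measure (Fin 3 → E n))
    (C0 c1 : NNReal) : Prop where
  fin_m : ∀ i, IsFiniteMeasure (m i)
  fin_κ : IsFiniteMeasure κ
  bdd : ∃ B : ℝ, ∀ i, ∀ᵐ ν ∂(m i), ‖ν‖ ≤ B ∧ ν 0 = 1 ∧ |ν 1 - ctr i| ≤ 1 / 100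
  lin : ∀ᵐ x ∂κ, ∑ i, co (fun i => x i 1) i • x i = 0
  pf : ∀ i j, i ≠ j → κ.map (fun x => (x i, x j)) ≤ C0 • (m i).prod (m j)
  c1_pos : 0 < c1
  core : ∀ i, c1 • m i ≤ κ.map (fun x => x i)
  dom : ∀ i, κ.map (fun x => x i) ≤ m i
  gram : ∀ x : E n, (∀ i, ∀ᵐ ν ∂(m i), x ⬝ᵥ ν = 0) → x = 0

/-- the full list of properties of the laws of the marks -/
structure MS {n : ℕ} (m : Fin 3 → Measure (E n)) (κ : Measure (Fin 3 → E n))
    (C0 c1 : NNReal) (b c : Fin 3) : Prop extends MS0 m κ C0 c1 where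
  bc : b ≠ c
  pos : κ ≠ 0
  nonat_b : ∀ t0 : ℝ, m b {ν | ν 1 = t0} = 0
  nonat_c : ∀ t0 : ℝ, m c {ν | ν 1 = t0} = 0
  ratio : ∀ r : ℝ, κ {x | x 0 1 - x 1 1 = r * (x 1 1 - x 2 1)} = 0
  irred : ∀ B C : Set (E n), MeasurableSet B → MeasurableSet C →
    (∀ᵐ x ∂κ, x b ∈ B ↔ x c ∈ C) → κ {x | x b ∈ B} = 0 ∨ κ {x | x b ∉ B} = 0

/-- the open square of radius `q` -/
def Q (q : ℝ) : Set (ℝ × ℝ) := Set.Ioo (-q) q ×ˢ Set.Ioo (-q) q

/-- the number of rows (or columns) crossed per unit of abscissa by a line of slope `t` -/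
noncomputable def rho (Λ : (ℝ × ℝ) ≃L[ℝ] (ℝ × ℝ)) (i : Fin 3) (t : ℝ) : ℝ :=
  |if i = 1 then (Λ.symm (1, t)).1 else (Λ.symm (1, t)).2|

/-- the crossing point of the lines with data `d` and `d'` -/
noncomputable def xp {n : ℕ} (d d' : Dt n) : ℝ × ℝ :=
  ((d'.2.1 - d.2.1) / (d.1 1 - d'.1 1), d.2.1 + d.1 1 * ((d'.2.1 - d.2.1) / (d.1 1 - d'.1 1)))

open Classical in
/-- the cells whose macroscopic position at scale `u` is in the square -/
noncomputable def cellsQ (Λ : (ℝ × ℝ) ≃L[ℝ] (ℝ × ℝ)) (q : ℝ) (u : ℕ) : Finset Z2 :=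
  (box 0 (⌈‖(Λ.symm : (ℝ × ℝ) →L[ℝ] (ℝ × ℝ))‖ * q⌉₊ * u)).filter
    fun w => Λ ((w.1 : ℝ) / u, (w.2 : ℝ) / u) ∈ Q q

/-- pull-back of a set of labels -/
def pullS {α β : Type} (π : α → β) (A : Set (β × ℕ)) : Set (α × ℕ) := {x | (π x.1, x.2) ∈ A}
/-- pull-back of a function of labels -/
def pullF {α β : Type} {γ : Type*} (π : α → β) (F : β × ℕ → γ) : α × ℕ → γ :=
  fun x => F (π x.1, x.2)

namespace Sys

variable (S : Sys)

/-- `h` satisfies the linear relation at almost every triple point with lines in `A` -/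
def LinT (A : Set (S.Ω × ℕ)) (h : S.Ω × ℕ → ℝ) : Prop :=
  ∀ᵐ ω ∂S.μ, ω ∈ S.TA A → ∑ i, co (fun i => S.sl (S.tx ω i)) i * h (S.tx ω i) = 0

/-- bounded measurable marks of lines -/
structure Marks0 {n : ℕ} (ν : S.Ω × ℕ → E n) : Prop where
  meas : Measurable ν
  bdd : ∃ B : ℝ, ∀ x, ‖ν x‖ ≤ B
  line : S.LineFn ν
  one : ∀ x, ν x 0 = 1
  slope : ∀ x, (S.Γ x.1).valid (0, x.2) → ν x 1 = S.sl x

/-- marks that are linear on the triple points with lines in `A` -/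
structure Marks (A : Set (S.Ω × ℕ)) {n : ℕ} (ν : S.Ω × ℕ → E n) : Prop extends S.Marks0 ν where
  lin : ∀ k, S.LinT A fun x => ν x k

/-- law of the marks of the lines of family `i` in `A` -/
noncomputable def mA (A : Set (S.Ω × ℕ)) {n : ℕ} (ν : S.Ω × ℕ → E n) (i : Fin 3) :
    Measure (E n) := ((S.mh i).restrict A).map ν

/-- law of the marks of the triple points with lines in `A` -/
noncomputable def κA (A : Set (S.Ω × ℕ)) {n : ℕ} (ν : S.Ω × ℕ → E n) :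
    Measure (Fin 3 → E n) := (S.μ.restrict (S.TA A)).map fun ω i => ν (S.tx ω i)

/-- every line in `A` has density at least `c1` of triple points with lines in `A` -/
def Core (A : Set (S.Ω × ℕ)) (c1 : NNReal) : Prop :=
  ∀ i, ∀ B, S.LineSet B → (c1 : ℝ≥0∞) * S.mh i (B ∩ A) ≤ S.μ (S.TA A ∩ {ω | S.tx ω i ∈ B})

/-- irreducibility with respect to the families `b` and `c` -/
def Irr (A : Set (S.Ω × ℕ)) (b c : Fin 3) : Prop :=
  ∀ B C, S.LineSet B → S.LineSet C →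
    (∀ᵐ ω ∂S.μ, ω ∈ S.TA A → (S.tx ω b ∈ B ↔ S.tx ω c ∈ C)) →
    S.μ (S.TA A ∩ {ω | S.tx ω b ∈ B}) = 0 ∨ S.μ (S.TA A ∩ {ω | S.tx ω b ∉ B}) = 0

/-- the slopes of the lines of family `i` in `A` have no atom -/
def NonAt (A : Set (S.Ω × ℕ)) (i : Fin 3) : Prop :=
  ∀ t0 : ℝ, S.mh i (A ∩ {x | S.sl x = t0}) = 0

/-- the ratio of the slope differences has no atom -/
def NoRatio : Prop :=
  ∀ r : ℝ, S.μ {ω | (S.Γ ω).tp 0 = true ∧
    S.sl (S.tx ω 0) - S.sl (S.tx ω 1) = r * (S.sl (S.tx ω 1) - S.sl (S.tx ω 2))} = 0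

/-- the marks are linearly independent -/
def Gram (A : Set (S.Ω × ℕ)) {n : ℕ} (ν : S.Ω × ℕ → E n) : Prop :=
  ∀ x : E n, (∀ i, ∀ᵐ y ∂((S.mh i).restrict A), x ⬝ᵥ ν y = 0) → x = 0

/-- maximality of the marks: in every extension a bounded function of lines that is linear on
the triple points is a combination of the marks with invariant coefficients -/
def MaxP (A : Set (S.Ω × ℕ)) {n : ℕ} (ν : S.Ω × ℕ → E n) : Prop :=
  ∀ (D : Dyn) (π : D.Ω → S.Ω) (hπ : D.Fac S.toDyn π) (h : D.Ω × ℕ → ℝ), Measurable h →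
    (∃ B : ℝ, ∀ x, |h x| ≤ B) → (S.pull D π hπ).LineFn h →
    (S.pull D π hπ).LinT (pullS π A) h →
    ∃ K : D.Ω → E n, Measurable K ∧ (∃ B : ℝ, ∀ ω, ‖K ω‖ ≤ B) ∧
      (∀ w ω, K (D.T w ω) = K ω) ∧
      ∀ i, ∀ᵐ x ∂(((S.pull D π hπ).mh i).restrict (pullS π A)), h x = K x.1 ⬝ᵥ pullF π ν x

/-- mark and offset of a label of the galaxy of `ω` -/
def fv {n : ℕ} (ν : S.Ω × ℕ → E n) (ω : S.Ω) (l : Lb) : H n := (S.ev ν ω l, (S.Γ ω).s l)

/-- the label `l` of the galaxy of `ω` is valid and in `A` -/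
def InA (A : Set (S.Ω × ℕ)) (ω : S.Ω) (l : Lb) : Prop :=
  (S.Γ ω).valid l ∧ (S.T l.1 ω, l.2) ∈ A

/-- infinitesimal rigidity of almost every galaxy -/
def Rigid (A : Set (S.Ω × ℕ)) {n : ℕ} (ν : S.Ω × ℕ → E n) : Prop :=
  ∀ᵐ ω ∂S.μ, ∀ ξ : Lb → H n, (S.Γ ω).LineC ξ → (∀ l, (ξ l).1 0 = 0) →
    (∀ w, S.T w ω ∈ S.TA A → XiRel (fun i => S.ev ν ω ((S.Γ ω).tlab w i)) ((S.Γ ω).v w).1
      fun i => ξ ((S.Γ ω).tlab w i)) →
    ∀ J : Finset Lb, (∀ l ∈ J, S.InA A ω l) →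
      ∃ γ : H n →ₗ[ℝ] H n, ∀ l ∈ J, ξ l = triv γ (S.fv ν ω l)

/-- every finite part of almost every galaxy is projectively algebraic -/
def ProjAlg (A : Set (S.Ω × ℕ)) {n : ℕ} (ν : S.Ω × ℕ → E n) : Prop :=
  ∀ᵐ ω ∂S.μ, ∀ J : Finset Lb, (∀ l ∈ J, S.InA A ω l) →
    ∃ g : H n ≃ₗ[ℝ] H n, ∀ l ∈ J, ∃ c : ℝ, c ≠ 0 ∧ IsAlg (c • g (S.fv ν ω l))

open Classical in
/-- the lines of family `i` in `A` with offset at most `ρ` -/
noncomputable def lnsA (A : Set (S.Ω × ℕ)) (ω : S.Ω) (i : Fin 3) (ρ : ℝ) : Finset Lb :=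
  ((S.Γ ω).lns i ρ).filter fun l => (S.T l.1 ω, l.2) ∈ A

end Sys

/-- mark, macroscopic offset and deformation of a label of an extension -/
def dat {Ω Ω' : Type} {n : ℕ} (π : Ω' → Ω) (ν : Ω × ℕ → E n) (X : Ω' → ℝ × ℝ)
    (h : Ω' × ℕ → H n) (x : Ω' × ℕ) : Dt n :=
  (pullF π ν x, (X x.1).2 - pullF π ν x 1 * (X x.1).1, h x)

/-- A tangent system: an extension with a macroscopic position `X`, additional marks `h` and
macroscopic line measures `nm`. -/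
structure Tan (S : Sys) (Λ : (ℝ × ℝ) ≃L[ℝ] (ℝ × ℝ)) (A : Set (S.Ω × ℕ)) {n : ℕ}
    (ν : S.Ω × ℕ → E n) (q : ℝ) where
  D : Dyn
  π : D.Ω → S.Ω
  fac : D.Fac S.toDyn π
  X : D.Ω → ℝ × ℝ
  h : D.Ω × ℕ → H n
  nm : Fin 3 → Measure (Dt n)
  c : NNReal
  c_pos : 0 < c
  c_eq : (c : ℝ≥0∞) * volume (Λ ⁻¹' Q q) = 1
  X_meas : Measurable X
  X_inv : ∀ w ω, X (D.T w ω) = X ω
  X_mem : ∀ ω, X ω ∈ Q q
  h_meas : Measurable h
  h_bdd : ∀ x, ‖h x‖ ≤ 1
  h_line : (S.pull D π fac).LineFn h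
  law : D.μ.map (fun ω => (π ω, X ω)) = S.μ.prod ((volume (Q q))⁻¹ • volume.restrict (Q q))
  nm_fin : ∀ i, IsFiniteMeasure (nm i)
  nm_supp : ∃ B : ℝ, ∀ i, ∀ᵐ d ∂(nm i), ‖d.1‖ ≤ B ∧ d.1 0 = 1 ∧ |d.1 1 - ctr i| ≤ 1 / 100 ∧
    |d.2.1| ≤ 3 * q ∧ ‖d.2.2‖ ≤ 1
  p1 : ∀ i, (((S.pull D π fac).mh i).restrict (pullS π A)).map
      (fun x => (dat π ν X h x, (X x.1).1))
    = c • ((((nm i).prod volume).restrict
        {y : Dt n × ℝ | (y.2, y.1.2.1 + y.1.1 1 * y.2) ∈ Q q}).withDensity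
        fun y => ENNReal.ofReal (rho Λ i (y.1.1 1)))
  p2 : ∀ i j, (((S.pull D π fac).pm i j).restrict
      {x | (x.1, x.2.1) ∈ pullS π A ∧ (x.1, x.2.2) ∈ pullS π A}).map
      (fun x => (dat π ν X h (x.1, x.2.1), dat π ν X h (x.1, x.2.2)))
    = c • ((nm i).prod (nm j)).restrict
        {y : Dt n × Dt n | y.1.1 1 ≠ y.2.1 1 ∧ xp y.1 y.2 ∈ Q q}

open Classical in
/-- the tangent system `τ` is the limit along `𝒰` of the galaxy of `ω` with the marks `hu` -/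
structure Tan.Of {S : Sys} {Λ : (ℝ × ℝ) ≃L[ℝ] (ℝ × ℝ)} {A : Set (S.Ω × ℕ)} {n : ℕ}
    {ν : S.Ω × ℕ → E n} {q : ℝ} (τ : Tan S Λ A ν q) (ω : S.Ω) (𝒰 : Ultrafilter ℕ)
    (hu : ℕ → Lb → H n) : Prop where
  p3 : ∀ Φ : (Fin 3 → E n × H n) × (ℝ × ℝ) → ℝ, Continuous Φ →
    Tendsto (fun u : ℕ => (∑ w ∈ (cellsQ Λ q u).filter (fun w => S.T w ω ∈ S.TA A),
      |Φ (fun i => (S.ev ν ω ((S.Γ ω).tlab w i), hu u ((S.Γ ω).tlab w i)),
        Λ ((w.1 : ℝ) / u, (w.2 : ℝ) / u))|) / (u : ℝ) ^ 2) 𝒰 (𝓝 0) →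
    ∀ᵐ x ∂τ.D.μ, τ.π x ∈ S.TA A →
      Φ (fun i => (ν (S.tx (τ.π x) i), τ.h (x, (S.Γ (τ.π x)).tl 0 i)), τ.X x) = 0
  p4 : ∀ i, ∀ F : BoundedContinuousFunction (Dt n) ℝ,
    Tendsto (fun u : ℕ => (∑ l ∈ S.lnsA A ω i (3 * q * (S.Γ ω).R u),
      F (S.ev ν ω l, (S.Γ ω).s l / (S.Γ ω).R u, hu u l)) / (u : ℝ)) 𝒰
      (𝓝 (∫ d, F d ∂(τ.nm i)))

end ECub
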