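import Pool.Agent.P.MP_029dcd_co.F.Defs
import Pool.Agent.P.MP_029dcd_co.F.A.Dhj
import Pool.Agent.P.MP_029dcd_co.F.A.Grid

/-! Layer A: density Hales-Jewett theorem and grids in dense sets. -/

set_option autoImplicit false

namespace ECub

open CubicStab MeasureTheory Filter Topology Finset
open scoped ENNReal

/-- The density Hales-Jewett theorem. -/
theorem dhj (α : Type) [Fintype α] [Nonempty α] (δ : ℝ) (hδ : 0 < δ) :
    ∃ n0 : ℕ, ∀ n, n0 ≤ n → ∀ A : Finset (Fin n → α),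
      δ * (Fintype.card α : ℝ) ^ n ≤ A.card →
      ∃ l : Combinatorics.Line α (Fin n), ∀ a, l a ∈ A :=
  A.dhj_fin α δ hδ

open Classical in
/-- A dense subset of the plane over `ZMod p` contains a positive proportion of all `m × m` grids. -/
theorem grid_count (m : ℕ) (δ : ℝ) (hδ : 0 < δ) :
    ∃ c : ℝ, 0 < c ∧ ∃ p0 : ℕ, ∀ (p : ℕ) [Fact p.Prime], p0 ≤ p →
      ∀ B : Finset (ZMod p × ZMod p), δ * (p : ℝ) ^ 2 ≤ B.card →
      c * (p : ℝ) ^ 3 ≤ ((univ.filter fun x : ZMod p × ZMod p × ZMod p => x.2.2 ≠ 0 ∧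
        ∀ i j : ℕ, i < m → j < m → (x.1 + i * x.2.2, x.2.1 + j * x.2.2) ∈ B).card : ℝ) :=
  A.grid_of_dhj dhj m δ hδ

end ECub
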