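import Pool.Agent.P.MP_029dcd_co.F.B.Glue
import Pool.Agent.P.MP_029dcd_co.F.B.NGlue

/-! Layer B: additive structure gives a cubic; gluing of cubics. -/

set_option autoImplicit false

namespace ECub

open CubicStab MeasureTheory Filter Topology Finset
open scoped ENNReal

/-- a cubic that covers many triples is irreducible -/
theorem cov_le_of_not_irred {k N : ℕ} {P : Fin 3 → Finset Pt} {T : Finset (Fin 3 → Pt)}
    (h : TS k N P T) (f : Pl) (hf0 : f ≠ 0) (hf : f.totalDegree ≤ 3) (hirr : ¬ Irreducible f) :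
    (cov f T).card ≤ 9 * (k + 1) * N :=
  B.cov_red h Subset.rfl (fun τ hτ => h.mem τ hτ 0) (fun τ hτ => h.mem τ hτ 1) (h.card_le 0)
    (h.card_le 1) f hf0 hf hirr

open Classical in
/-- additive structure with bounded multiplicities gives a cubic -/
theorem add_cub (k M : ℕ) (γ : ℝ) (hγ : 0 < γ) :
    ∃ η : ℝ, 0 < η ∧ ∃ N0 : ℕ, ∀ N, N0 ≤ N → ∀ (W : Type) [AddCommGroup W] [Module ℚ W]
      (P : Fin 3 → Finset Pt) (T : Finset (Fin 3 → Pt)), TS k N P T →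
      γ * (N : ℝ) ^ 2 ≤ T.card → ∀ φ : Fin 3 → Pt → W, (∀ τ ∈ T, ∑ i, φ i (τ i) = 0) →
      (∀ i x, ((P i).filter fun p => φ i p = x).card ≤ M) → Cub (η * (N : ℝ) ^ 2) T :=
  B.add_cub' k M γ hγ

open Classical in
/-- gluing along the fibres of an additive relation -/
theorem glue2 (k : ℕ) (γ : ℝ) (hγ : 0 < γ) :
    ∃ ε : ℝ, 0 < ε ∧ ∀ η : ℝ, 0 < η → ∀ M0 : ℕ, ∃ η' : ℝ, 0 < η' ∧ ∃ N0 : ℕ, ∀ N, N0 ≤ N →
      ∀ (W : Type) [AddCommGroup W] [Module ℚ W]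
        (P : Fin 3 → Finset Pt) (T : Finset (Fin 3 → Pt)), TS k N P T →
      γ * (N : ℝ) ^ 2 ≤ T.card → ∀ π : Fin 3 → Pt → W, (∀ τ ∈ T, ∑ i, π i (τ i) = 0) →
      (∀ (x : Fin 3 → W) (n : ℕ), M0 ≤ n →
        (∀ i, ((P i).filter fun p => π i p = x i).card ≤ n) →
        ε * (n : ℝ) ^ 2 ≤ (T.filter fun τ => ∀ i, π i (τ i) = x i).card →
        Cub (η * (n : ℝ) ^ 2) (T.filter fun τ => ∀ i, π i (τ i) = x i)) →
      Cub (η' * (N : ℝ) ^ 2) T :=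
  B.glue2' k γ hγ

open Classical in
/-- multi-scale gluing of local cubics -/
theorem glue (k : ℕ) (γ η : ℝ) (hγ : 0 < γ) (hη : 0 < η) :
    ∃ η' : ℝ, 0 < η' ∧ ∃ u0 : ℕ, ∀ u N : ℕ, u0 ≤ u → u ≤ N →
      ∀ (P : Fin 3 → Finset Pt) (T : Finset (Fin 3 → Pt)), TS k N P T →
      ∀ cell : (Fin 3 → Pt) → Z2, (∀ τ ∈ T, ∀ τ' ∈ T, cell τ = cell τ' → τ = τ') →
      (∀ τ ∈ T, cell τ ∈ Ico (0 : ℤ) N ×ˢ Ico (0 : ℤ) N) →
      (∀ i : Fin 3, i ≠ 2 → ∀ (p : Pt) (n : ℕ) (S : Finset (Fin 3 → Pt)), S ⊆ T →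
        (∀ τ ∈ S, τ i = p) → (∀ τ ∈ S, ∀ τ' ∈ S, τ ≠ τ' →
          (n : ℤ) ≤ max |(cell τ).1 - (cell τ').1| |(cell τ).2 - (cell τ').2|) →
        (S.card - 1) * n ≤ 2 * N) →
      γ * (N : ℝ) ^ 2 ≤ ((Ico (0 : ℤ) N ×ˢ Ico (0 : ℤ) N).filter fun y : Z2 =>
        Cub (η * (u : ℝ) ^ 2) (T.filter fun τ => cell τ ∈ box y u)).card →
      Cub (η' * (N : ℝ) ^ 2) T :=
  B.glue' k γ η hγ hη

open Classical in
/-- A galaxy has no fibred additive structure at all large scales. -/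
theorem nglue {k : ℕ} {C : ℝ} (G : Gal) (hG : G.Ax k C) (K : ℕ)
    (hK : ∀ᶠ u : ℕ in atTop, ∀ i, (((box 0 u).filter fun w => G.tp w = true).image
      fun w => G.rep (G.tlab w i)).card ≤ K * u)
    (W : Type) [AddCommGroup W] [Module ℚ W] (γ : ℝ) (hγ : 0 < γ) (M : ℕ) :
    ¬ ∀ᶠ u : ℕ in atTop, ∃ (Cs : Finset Z2) (π : Fin 3 → Lb → ℝ)
      (φ : (Fin 3 → ℝ) → Fin 3 → Lb → W),
      (∀ w ∈ Cs, w ∈ box 0 u ∧ G.tp w = true) ∧ γ * (u : ℝ) ^ 2 ≤ Cs.card ∧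
      (∀ i, ∀ w ∈ Cs, ∀ w' ∈ Cs, G.same (G.tlab w i) (G.tlab w' i) = true →
        π i (G.tlab w i) = π i (G.tlab w' i) ∧
          ∀ x, φ x i (G.tlab w i) = φ x i (G.tlab w' i)) ∧
      (∀ w ∈ Cs, ∑ i, π i (G.tlab w i) = 0 ∧
        ∑ i, φ (fun j => π j (G.tlab w j)) i (G.tlab w i) = 0) ∧
      ∀ (x : Fin 3 → ℝ) (i : Fin 3) (y : W),
        ((Cs.filter fun w => (∀ j, π j (G.tlab w j) = x j) ∧ φ x i (G.tlab w i) = y).image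
          fun w => G.rep (G.tlab w i)).card ≤ M :=
  B.nglue' G hG K hK W γ hγ M

open Classical in
/-- A galaxy has no additive structure at all large scales. -/
theorem nadd {k : ℕ} {C : ℝ} (G : Gal) (hG : G.Ax k C) (K : ℕ)
    (hK : ∀ᶠ u : ℕ in atTop, ∀ i, (((box 0 u).filter fun w => G.tp w = true).image
      fun w => G.rep (G.tlab w i)).card ≤ K * u)
    (W : Type) [AddCommGroup W] [Module ℚ W] (γ : ℝ) (hγ : 0 < γ) (M : ℕ) :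
    ¬ ∀ᶠ u : ℕ in atTop, ∃ (Cs : Finset Z2) (φ : Fin 3 → Lb → W),
      (∀ w ∈ Cs, w ∈ box 0 u ∧ G.tp w = true) ∧ γ * (u : ℝ) ^ 2 ≤ Cs.card ∧
      (∀ i, ∀ w ∈ Cs, ∀ w' ∈ Cs, G.same (G.tlab w i) (G.tlab w' i) = true →
        φ i (G.tlab w i) = φ i (G.tlab w' i)) ∧
      (∀ w ∈ Cs, ∑ i, φ i (G.tlab w i) = 0) ∧
      ∀ (i : Fin 3) (y : W), ((Cs.filter fun w => φ i (G.tlab w i) = y).image
          fun w => G.rep (G.tlab w i)).card ≤ M := by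
  intro h
  refine nglue G hG K hK W γ hγ M (h.mono ?_)
  rintro u ⟨Cs, φ, h1, h2, h3, h4, h5⟩
  refine ⟨Cs, fun _ _ => 0, fun _ => φ, h1, h2, fun i w hw w' hw' e =>
    ⟨rfl, fun _ => h3 i w hw w' hw' e⟩, fun w hw => ⟨by simp, h4 w hw⟩, fun x i y => ?_⟩
  refine le_trans (card_le_card (image_subset_image fun w hw => ?_)) (h5 i y)
  exact mem_filter.2 ⟨(mem_filter.1 hw).1, (mem_filter.1 hw).2.2⟩

end ECub
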