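import Pool.Agent.P.MP_029dcd_co.F.C.Ord
import Pool.Agent.P.MP_029dcd_co.F.C.Pts
import Pool.Agent.P.MP_029dcd_co.Core

/-! Layer C: reduction of the problem to triple systems in standard position. -/

set_option autoImplicit false

namespace ECub

open CubicStab MeasureTheory Filter Topology Finset
open scoped ENNReal

open Classical in
/-- the theorem for standard position implies the full statement -/
theorem main_of_thmI (h : ThmI) :
    ∀ k : ℕ, ∀ δ : ℝ, 0 < δ → ∃ c : ℝ, 0 < c ∧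
      ∀ A : Finset (ℝ × ℝ),
        (∀ S : Finset (ℝ × ℝ), S ⊆ A → Collinear ℝ (S : Set (ℝ × ℝ)) → S.card ≤ k) →
        δ * (A.card : ℝ) ^ 2 ≤
          (((A ×ˢ A).filter (fun q : (ℝ × ℝ) × (ℝ × ℝ) =>
              q.1 ≠ q.2 ∧ ∃ z ∈ A, z ≠ q.1 ∧ z ≠ q.2 ∧
                Collinear ℝ ({q.1, q.2, z} : Set (ℝ × ℝ)))).card : ℝ) →
        ∃ p : MvPolynomial (Fin 2) ℝ, p ≠ 0 ∧ p.totalDegree ≤ 3 ∧
          c * (A.card : ℝ) ≤
            ((A.filter (fun x : ℝ × ℝ => MvPolynomial.eval ![x.1, x.2] p = 0)).card : ℝ) := by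
  intro k δ hδ
  obtain ⟨c, hc, H⟩ := C.pts (C.cub_ord2 (C.cub_std h)) k δ hδ
  refine ⟨c, hc, fun A hk hrich => ?_⟩
  obtain ⟨σ, hσ⟩ := exists_shear A
  have hcard : (A.image (CubicStab.sh σ)).card = A.card := card_image_of_injective _ (sh_inj σ)
  obtain ⟨f, hf0, hf3, hf⟩ := H (A.image (CubicStab.sh σ)) (by
      intro P hP Q hQ e
      obtain ⟨P', hP', rfl⟩ := mem_image.1 hP
      obtain ⟨Q', hQ', rfl⟩ := mem_image.1 hQ
      rw [hσ P' hP' Q' hQ' e]) (by
      intro v S hS hv
      have h1 : S ⊆ (A.filter fun P => On (CubicStab.sh σ P) v).image (CubicStab.sh σ) := by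
        intro P hP
        obtain ⟨P', hP', rfl⟩ := mem_image.1 (hS hP)
        exact mem_image.2 ⟨P', mem_filter.2 ⟨hP', hv _ hP⟩, rfl⟩
      exact ((card_le_card h1).trans card_image_le).trans (hk _ (filter_subset _ _)
        (collinear_of_on σ v _ fun P hP => (mem_filter.1 (mem_coe.1 hP)).2))) (by
      rw [hcard]
      refine hrich.trans (Nat.cast_le.2 (card_le_card_of_injOn
        (fun q => (CubicStab.sh σ q.1, CubicStab.sh σ q.2)) (fun q hq => ?_) fun q _ q' _ e => ?_))
      · obtain ⟨a, hne, z, hz, z1, z2, z3⟩ := mem_filter.1 (mem_coe.1 hq)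
        obtain ⟨a1, a2⟩ := mem_product.1 a
        obtain ⟨o1, o2⟩ := xpt_on (P := CubicStab.sh σ q.1) (Q := CubicStab.sh σ q.2)
          fun e => hne (hσ _ a1 _ a2 e)
        exact mem_coe.2 (mem_filter.2 ⟨mem_product.2 ⟨mem_image_of_mem _ a1, mem_image_of_mem _ a2⟩,
          fun e => hne (sh_inj σ e), _, mem_image_of_mem _ hz, fun e => z1 (sh_inj σ e),
          fun e => z2 (sh_inj σ e), _, o1, o2, on_of_collinear σ _ hne o1 o2 z3⟩)
      · exact Prod.ext (sh_inj σ (congrArg Prod.fst e)) (sh_inj σ (congrArg Prod.snd e)))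
  let g : Fin 2 → Pl := ![MvPolynomial.X 1, MvPolynomial.X 0 + MvPolynomial.C σ * MvPolynomial.X 1]
  have hev : ∀ (h : Pl) (x : ℝ × ℝ),
      MvPolynomial.eval ![x.1, x.2] (MvPolynomial.aeval g h) = ev h (CubicStab.sh σ x) := by
    intro h x
    induction h using MvPolynomial.induction_on with
    | C c => simp [ev]
    | add p q hp hq => rw [map_add, map_add, hp, hq]; simp [ev]
    | mul_X p i hp =>
      rw [map_mul, map_mul, hp, ev_mul]
      fin_cases i <;> simp [g, ev, CubicStab.sh]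
  refine ⟨MvPolynomial.aeval g f, fun h => hf0 ?_, (totalDegree_aeval_lin g ?_ f).trans hf3, ?_⟩
  · apply MvPolynomial.funext
    intro x
    have := hev f (x 1 - σ * x 0, x 0)
    rw [h] at this
    have hx : x = ![x 0, x 1] := by ext i; fin_cases i <;> simp
    rw [hx]
    simpa [ev, CubicStab.sh] using this.symm
  · intro i
    fin_cases i
    · simp [g]
    · simp only [g, Fin.mk_one, Matrix.cons_val_one, Matrix.cons_val_zero]
      refine (MvPolynomial.totalDegree_add _ _).trans (max_le (by simp) ?_)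
      refine (MvPolynomial.totalDegree_mul _ _).trans ?_
      simp
  · rw [hcard] at hf
    refine hf.trans (Nat.cast_le.2 (le_trans (card_le_card ?_)
      (card_image_le (f := CubicStab.sh σ))))
    intro P hP
    obtain ⟨a1, a2⟩ := mem_filter.1 hP
    obtain ⟨P', hP', rfl⟩ := mem_image.1 a1
    exact mem_image.2 ⟨P', mem_filter.2 ⟨hP', by rw [hev]; exact a2⟩, rfl⟩

end ECub
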