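import Pool.Agent.P.MP_029dcd_co.F.D.Ax

/-! Layer D: the cell structure of a finite configuration and its quasi-symmetry. -/

set_option autoImplicit false

namespace ECub

open CubicStab MeasureTheory Filter Topology Finset
open scoped ENNReal

namespace D

variable {P : Fin 3 → Finset Pt} {T : Finset (Fin 3 → Pt)} {k N : ℕ}

theorem sd_row (h : TS k N P T) (hs : Std P) : SD (lam P) (mu P) (P 0).card (GG P T).tp (GG P T).g
    (P 2) (fun w => tri P T w 2) (fun r b => (rowc P r b).1) val := by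
  have n1 : ∀ r ∈ P 2, r ∉ P 1 := fun r hr => disjoint_left.1 (h.disj 2 1 (by decide)) hr
  have sp : ∀ r ∈ P 2, -(1 / 100) ≤ r.1 ∧ r.1 ≤ 101 / 100 := fun r hr =>
    slr hs (mem_UU.2 ⟨2, hr⟩) (n1 r hr)
  refine ⟨fun w c => ?_, fun w w' c c' e e' => ?_, fun r hr b b' hb => ?_, fun w => ?_,
    fun r hr x x' hx => ?_, fun r hr b => ⟨rx P r b, (rx_spec hs (sp r hr) b).1, fun a h0 h1 =>
      lev_iff 1 h0 h1 _⟩⟩
  · obtain ⟨h1, h2⟩ := tri_spec (tp_iff.1 c)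
    have := tr_row h hs h1 (i := 2) (by decide)
    rw [h2] at this
    exact ⟨h.mem _ h1 2, congrArg Prod.fst this⟩
  · obtain ⟨h1, h2⟩ := tri_spec (tp_iff.1 c)
    obtain ⟨h3, h4⟩ := tri_spec (tp_iff.1 c')
    have a := tr_col h hs h1 (i := 2) (by decide)
    have b := tr_col h hs h3 (i := 2) (by decide)
    rw [h2] at a
    rw [h4] at b
    rw [← a, e, e', b]
  · refine bel_le_bel fun p hp hv => ?_
    have d := sub_nonneg.2 (rx_mono hs (sp r hr) hb)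
    have u := mul_le_mul_of_nonneg_right
      (show r.1 ≤ p.1 by linarith [(sl2 hs r hr).2, (sl0 hs p hp).1]) d
    simp only at hv ⊢
    linarith [val_sub p (rx P r b) (rx P r b'), val_sub r (rx P r b) (rx P r b')]
  · refine card_le_card fun r hr => ?_
    obtain ⟨h1, h2⟩ := mem_filter.1 hr
    exact mem_vis.2 ⟨mem_UU.2 ⟨2, h1⟩, Or.inr (Or.inl ⟨n1 r h1, Prod.ext h2 rfl⟩)⟩
  · linarith [val_sub r x x', mul_le_mul_of_nonneg_right (sl2 hs r hr).1 (sub_nonneg.2 hx)]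

theorem sd_col (h : TS k N P T) (hs : Std P) :
    SD (fun b x => mu P b (-x)) (fun a x => lam P a (-x)) (P 1).card
      (fun w => (GG P T).tp w.swap) (fun w => (GG P T).g w.swap) (P 2)
      (fun w => tri P T w.swap 2) (fun r a => (colc P r a).2) fun r x => val r (-x) := by
  have n0 : ∀ r ∈ P 2, r ∉ P 0 := fun r hr => disjoint_left.1 (h.disj 2 0 (by decide)) hr
  have sp : ∀ r ∈ P 2, -(101 / 100) ≤ r.1 ∧ r.1 ≤ 1 / 100 := fun r hr =>
    slc hs (mem_UU.2 ⟨2, hr⟩) (n0 r hr)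
  refine ⟨fun w c => ?_, fun w w' c c' e e' => ?_, fun r hr a a' ha => ?_, fun w => ?_,
    fun r hr x x' hx => ?_, fun r hr a => ⟨-cx P r a, ?_, fun b h0 h1 => ?_⟩⟩
  · obtain ⟨h1, h2⟩ := tri_spec (tp_iff.1 c)
    have := tr_col h hs h1 (i := 2) (by decide)
    rw [h2] at this
    exact ⟨h.mem _ h1 2, congrArg Prod.snd this⟩
  · obtain ⟨h1, h2⟩ := tri_spec (tp_iff.1 c)
    obtain ⟨h3, h4⟩ := tri_spec (tp_iff.1 c')
    have a := tr_row h hs h1 (i := 2) (by decide)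
    have b := tr_row h hs h3 (i := 2) (by decide)
    rw [h2] at a
    rw [h4] at b
    refine Prod.swap_injective ?_
    rw [← a, e, Prod.snd_swap, e', ← Prod.snd_swap, b]
  · refine bel_le_bel fun p hp hv => ?_
    have d := sub_nonneg.2 (cx_anti hs (sp r hr) ha)
    have u := mul_le_mul_of_nonneg_right
      (show p.1 ≤ r.1 by linarith [(sl2 hs r hr).1, (sl1 hs p hp).2]) d
    simp only at hv ⊢
    linarith [val_sub p (cx P r a') (cx P r a), val_sub r (cx P r a') (cx P r a)]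
  · refine card_le_card fun r hr => ?_
    obtain ⟨h1, h2⟩ := mem_filter.1 hr
    exact mem_vis.2 ⟨mem_UU.2 ⟨2, h1⟩, Or.inr (Or.inr ⟨n0 r h1, Prod.ext rfl h2⟩)⟩
  · linarith [val_sub r (-x') (-x), mul_le_mul_of_nonneg_right (sl2 hs r hr).2 (sub_nonneg.2 hx)]
  · rw [neg_neg]
    exact (cx_spec hs (sp r hr) a).1.symm
  · rw [neg_neg]
    exact lev_iff (-1) h0 h1 _

end D

theorem fin_geo : ∃ (GG : (Fin 3 → Finset Pt) → Finset (Fin 3 → Pt) → Gal)
    (lab : (Fin 3 → Finset Pt) → Lb → Pt) (cell : (Fin 3 → Finset Pt) → (Fin 3 → Pt) → Z2),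
    (∀ k N P T, TS k N P T → Std P → FinAx N P T (GG P T) (lab P) (cell P)) ∧
    ∀ τ : ℝ, 0 < τ → ∀ K : ℝ, ∃ (C : ℝ) (A0 : ℕ) (ε : ℝ) (n0 : ℕ), 0 < ε ∧
      ∀ k N P T, TS k N P T → Std P → ∀ (y : Z2) (n : ℕ), n0 ≤ n →
        (∀ x ∈ box y (A0 * n), InR P x) →
        (GG P T).CR y (A0 * n) τ K (ε * (n : ℝ) ^ 2) →
        (GG P T).QS y n C ∧
          (GG P T).v (y + ((n : ℤ), (n : ℤ))) ≠ (GG P T).v (y - ((n : ℤ), (n : ℤ))) := by
  refine ⟨D.GG, D.lab, D.cell, fun _ _ _ _ h hs => D.finAx h hs, fun τ hτ K => ?_⟩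
  obtain ⟨C, ε, n1, hε, H⟩ := D.geo_abs τ hτ K
  refine ⟨C, 6, ε, n1, hε, fun k N P T h hs y n hn hR hC => ?_⟩
  have n0 : (0 : ℤ) ≤ n := Int.natCast_nonneg n
  have i1 := hR (y.1 - 6 * n, y.2 - 6 * n) (D.mem_box.2 (by push_cast; omega))
  have i2 := hR (y.1 + 6 * n, y.2 + 6 * n) (D.mem_box.2 (by push_cast; omega))
  refine H _ _ _ _ _ _ _ _ _ _ _ _ _ _ _ (D.gd hs) (D.sd_row h hs) (D.sd_col h hs)
    (fun w w' c c' e => ?_) y n hn (zero_le_one.trans i1.1) i2.2.1 (zero_le_one.trans i1.2.2.1)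
    i2.2.2.2 hC
  obtain ⟨σ, h1, rfl⟩ := D.tp_iff.1 c
  obtain ⟨σ', h2, rfl⟩ := D.tp_iff.1 c'
  rw [(D.tr_vx h hs h1).1, (D.tr_vx h hs h2).1] at e
  rw [D.cell, e, D.cell]

end ECub
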