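import Pool.Agent.P.MP_029dcd_co.F.E.Dec
import Pool.Agent.P.MP_029dcd_co.F.E.Emp
import Pool.Agent.P.MP_029dcd_co.F.E.Line

/-! Layer E: ergodic theory. -/

set_option autoImplicit false

namespace ECub

open CubicStab MeasureTheory Filter Topology Finset
open scoped ENNReal

/-- pointwise ergodic theorem for actions of `ℤ × ℤ` -/
theorem et2 {α : Type*} [MeasurableSpace α] (μ : Measure α) [IsFiniteMeasure μ]
    (T : Z2 → α → α) (h0 : ∀ a, T 0 a = a) (hadd : ∀ x y a, T (x + y) a = T x (T y a))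
    (hmp : ∀ x, MeasurePreserving (T x) μ μ) (F : α → ℝ) (hF : Integrable F μ) :
    ∃ Fb : α → ℝ, Measurable Fb ∧ (∀ w a, Fb (T w a) = Fb a) ∧ Integrable Fb μ ∧
      (∀ B, MeasurableSet B → (∀ w, T w ⁻¹' B = B) → ∫ a in B, Fb a ∂μ = ∫ a in B, F a ∂μ) ∧
      ∀ᵐ a ∂μ, BoxLim (fun w => F (T w a)) (Fb a) := by
  exact Erg.et2 μ T h0 hadd hmp F hF

/-- the ergodic case -/
theorem et2_erg {α : Type*} [MeasurableSpace α] (μ : Measure α) [IsProbabilityMeasure μ]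
    (T : Z2 → α → α) (h0 : ∀ a, T 0 a = a) (hadd : ∀ x y a, T (x + y) a = T x (T y a))
    (hmp : ∀ x, MeasurePreserving (T x) μ μ) (herg : ErgM T μ) (F : α → ℝ)
    (hF : Integrable F μ) : ∀ᵐ a ∂μ, BoxLim (fun w => F (T w a)) (∫ a, F a ∂μ) := by
  exact Erg.et2_erg μ T h0 hadd hmp herg F hF

/-- pointwise ergodic theorem for actions of `ℤ` -/
theorem et1 {α : Type*} [MeasurableSpace α] (μ : Measure α) [IsFiniteMeasure μ]
    (T : ℤ → α → α) (h0 : ∀ a, T 0 a = a) (hadd : ∀ x y a, T (x + y) a = T x (T y a))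
    (hmp : ∀ x, MeasurePreserving (T x) μ μ) (F : α → ℝ) (hF : Integrable F μ) :
    ∃ Fb : α → ℝ, Measurable Fb ∧ (∀ w a, Fb (T w a) = Fb a) ∧ Integrable Fb μ ∧
      (∀ B, MeasurableSet B → (∀ w, T w ⁻¹' B = B) → ∫ a in B, Fb a ∂μ = ∫ a in B, F a ∂μ) ∧
      ∀ᵐ a ∂μ, IntLim (fun b => F (T b a)) (Fb a) := by
  exact Erg.et1 μ T h0 hadd hmp F hF

theorem BoxLim.unique {f : Z2 → ℝ} {c c' : ℝ} (h : BoxLim f c) (h' : BoxLim f c') : c = c' := by
  exact Erg.boxLim_unique h h'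

theorem IntLim.unique {f : ℤ → ℝ} {c c' : ℝ} (h : IntLim f c) (h' : IntLim f c') : c = c' := by
  exact Erg.intLim_unique h h'

theorem BoxLim.shift {f : Z2 → ℝ} {c : ℝ} (h : BoxLim f c) (y : Z2) :
    BoxLim (fun w => f (y + w)) c := by
  exact Erg.boxLim_shift h y

theorem IntLim.shift {f : ℤ → ℝ} {c : ℝ} (h : IntLim f c) (y : ℤ) :
    IntLim (fun w => f (y + w)) c := by
  exact Erg.intLim_shift h y

/-- ergodic decomposition -/
theorem erg_dec (D : Dyn) : ∃ κ : ProbabilityTheory.Kernel D.Ω D.Ω,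
    ProbabilityTheory.IsMarkovKernel κ ∧ D.μ.bind κ = D.μ ∧
      ∀ᵐ ω ∂D.μ, (∀ w, MeasurePreserving (D.T w) (κ ω) (κ ω)) ∧ ErgM D.T (κ ω) := by
  exact Erg.erg_dec D

/-- ergodic decomposition of an extension of an ergodic system -/
theorem erg_dec_fac (D' D : Dyn) (π : D'.Ω → D.Ω) (hπ : D'.Fac D π) (hD : D.Erg) :
    ∃ κ : ProbabilityTheory.Kernel D'.Ω D'.Ω,
    ProbabilityTheory.IsMarkovKernel κ ∧ D'.μ.bind κ = D'.μ ∧
      ∀ᵐ ω ∂D'.μ, (∀ w, MeasurePreserving (D'.T w) (κ ω) (κ ω)) ∧ ErgM D'.T (κ ω) ∧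
        MeasurePreserving π (κ ω) D.μ := by
  exact Erg.erg_dec_fac D' D π hπ hD

/-- invariant functions of an extension are independent of an ergodic factor -/
theorem indep_fac (D' D : Dyn) (π : D'.Ω → D.Ω) (hπ : D'.Fac D π) (hD : D.Erg)
    {β : Type*} [MeasurableSpace β] (Ψ : D'.Ω → β) (hΨ : Measurable Ψ)
    (hinv : ∀ w ω, Ψ (D'.T w ω) = Ψ ω) :
    D'.μ.map (fun ω => (π ω, Ψ ω)) = D.μ.prod (D'.μ.map Ψ) := by
  exact Erg.indep_fac D' D π hπ hD Ψ hΨ hinv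

/-- limits of empirical measures along Folner sets -/
theorem emp {Y : Type} [TopologicalSpace Y] [CompactSpace Y] [TopologicalSpace.MetrizableSpace Y]
    [MeasurableSpace Y] [BorelSpace Y] (𝒰 : Ultrafilter ℕ) (c : ℕ → Z2 → Y)
    (B : ℕ → Finset Z2) (hne : ∀ᶠ n in (𝒰 : Filter ℕ), (B n).Nonempty)
    (hfol : ∀ w : Z2, Tendsto (fun n => ((((B n).image (· + w)) \ B n).card : ℝ) / (B n).card)
      𝒰 (𝓝 0)) :
    ∃ μ : Measure (Z2 → Y), IsProbabilityMeasure μ ∧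
      (∀ w, MeasurePreserving (sh w) μ μ) ∧
      ∀ Φ : C(Z2 → Y, ℝ), Tendsto (fun n => (∑ y ∈ B n, Φ (sh y (c n))) / (B n).card) 𝒰
        (𝓝 (∫ x, Φ x ∂μ)) := by
  exact Erg.emp 𝒰 c B hne hfol

/-- an almost sure property holds on an invariant measurable set of full measure -/
theorem exists_inv_conull (D : Dyn) (p : D.Ω → Prop) (hp : ∀ᵐ ω ∂D.μ, p ω) :
    ∃ Z : Set D.Ω, MeasurableSet Z ∧ (∀ w, D.T w ⁻¹' Z = Z) ∧ D.μ Zᶜ = 0 ∧ ∀ ω ∈ Z, p ω := by
  exact Erg.exists_inv_conull D p hp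

/-- events that are locally determined by countably many discrete data are measurable -/
theorem measurableSet_of_local {Ω ι β : Type*} [MeasurableSpace Ω] [Countable ι] [Countable β]
    [MeasurableSpace β] [MeasurableSingletonClass β] (d : Ω → ι → β)
    (hd : ∀ i, Measurable fun ω => d ω i) (B : Set Ω)
    (hB : ∀ ω ∈ B, ∃ J : Finset ι, ∀ ω', (∀ i ∈ J, d ω' i = d ω i) → ω' ∈ B) :
    MeasurableSet B := by
  exact Erg.measurableSet_of_local d hd B hB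

instance Sys.mh_finite (S : Sys) (i : Fin 3) : IsFiniteMeasure (S.mh i) := by
  exact Erg.mh_finite S i

instance Sys.pm_finite (S : Sys) (i j : Fin 3) : IsFiniteMeasure (S.pm i j) := by
  exact Erg.pm_finite S i j

open Classical in
/-- integrals over canonical labels as integrals over the base -/
theorem Sys.lintegral_mh (S : Sys) (i : Fin 3) (F : S.Ω × ℕ → ℝ≥0∞) (hF : Measurable F) :
    ∫⁻ x, F x ∂(S.mh i) =
      ∫⁻ ω, ∑' j : ℕ, (if (S.Γ ω).Can i (0, j) then F (ω, j) else 0) ∂S.μ := by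
  exact Erg.lintegral_mh S i F hF

theorem Sys.measurable_tx (S : Sys) (i : Fin 3) : Measurable fun ω => S.tx ω i := by
  exact Erg.measurable_tx S i

theorem Sys.measurable_sl (S : Sys) : Measurable S.sl := by
  exact Erg.measurable_sl S

theorem Sys.measurableSet_TA (S : Sys) {A : Set (S.Ω × ℕ)} (hA : MeasurableSet A) :
    MeasurableSet (S.TA A) := by
  exact Erg.measurableSet_TA S hA

/-- the labels of triple points are canonical -/
theorem Sys.map_tx_le (S : Sys) (i : Fin 3) :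
    (S.μ.restrict {ω | (S.Γ ω).tp 0 = true}).map (fun ω => S.tx ω i) ≤ S.mh i := by
  exact Erg.map_tx_le S i

/-- a property of almost every canonical label holds for all canonical labels of almost every
galaxy -/
theorem Sys.ae_gal (S : Sys) (i : Fin 3) (p : S.Ω × ℕ → Prop) (hp : ∀ᵐ x ∂(S.mh i), p x) :
    ∀ᵐ ω ∂S.μ, ∀ l, (S.Γ ω).Can i l → p (S.T l.1 ω, l.2) := by
  exact Erg.ae_gal S i p hp

/-- the measure on canonical labels of a pull-back projects onto that of the factor -/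
theorem Sys.mp_mh (S : Sys) (D : Dyn) (π : D.Ω → S.Ω) (h : D.Fac S.toDyn π) (i : Fin 3) :
    MeasurePreserving (fun x : D.Ω × ℕ => (π x.1, x.2)) ((S.pull D π h).mh i) (S.mh i) := by
  exact Erg.mp_mh S D π h i

theorem Sys.mp_pm (S : Sys) (D : Dyn) (π : D.Ω → S.Ω) (h : D.Fac S.toDyn π) (i j : Fin 3) :
    MeasurePreserving (fun x : D.Ω × ℕ × ℕ => (π x.1, x.2)) ((S.pull D π h).pm i j)
      (S.pm i j) := by
  exact Erg.mp_pm S D π h i j

theorem Sys.LineFn.pull {S : Sys} {β : Type*} {F : S.Ω × ℕ → β} (hF : S.LineFn F) (D : Dyn)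
    (π : D.Ω → S.Ω) (h : D.Fac S.toDyn π) : (S.pull D π h).LineFn (pullF π F) := by
  exact Erg.lineFn_pull hF D π h

theorem Sys.LineSet.pull {S : Sys} {A : Set (S.Ω × ℕ)} (hA : S.LineSet A) (D : Dyn)
    (π : D.Ω → S.Ω) (h : D.Fac S.toDyn π) : (S.pull D π h).LineSet (pullS π A) := by
  exact Erg.lineSet_pull hA D π h

theorem Sys.Lin.pull {S : Sys} {Λ : (ℝ × ℝ) ≃L[ℝ] (ℝ × ℝ)} (hΛ : S.Lin Λ) (D : Dyn)
    (π : D.Ω → S.Ω) (h : D.Fac S.toDyn π) : (S.pull D π h).Lin Λ := by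
  exact Erg.lin_pull hΛ D π h

/-- the ergodic theorem along the lines of family `i` -/
theorem Sys.line_et (S : Sys) (i : Fin 3) (F : S.Ω × ℕ → ℝ) (hF : Measurable F)
    (hi : Integrable F (S.mh i)) :
    ∃ Fb : S.Ω × ℕ → ℝ, Measurable Fb ∧ S.LineFn Fb ∧ Integrable Fb (S.mh i) ∧
      (∀ B, S.LineSet B → ∫ x in B, Fb x ∂(S.mh i) = ∫ x in B, F x ∂(S.mh i)) ∧
      ∀ᵐ ω ∂S.μ, ∀ l, (S.Γ ω).valid l → (S.Γ ω).fam l = i →
        IntLim (fun b => S.ev F ω ((S.Γ ω).at' l b)) (S.ev Fb ω l) := by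
  exact (fun _ => Erg.line_et S i F hi) hF

/-- the signed displacement to the next canonical label is measurable and integrable -/
theorem Sys.disp_integrable (S : Sys) (i : Fin 3) :
    Measurable (fun x : S.Ω × ℕ => (oth i ((S.Γ x.1).at' (0, x.2) 1).1 : ℝ)) ∧
    Integrable (fun x : S.Ω × ℕ => (oth i ((S.Γ x.1).at' (0, x.2) 1).1 : ℝ)) (S.mh i) := by
  exact Erg.disp_integrable S i

end ECub
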