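import Pool.Agent.P.MP_029dcd_co.F.G.Alg

/-! Layer G: derivations and algebraic coordinates. -/

set_option autoImplicit false

namespace ECub

open CubicStab MeasureTheory Filter Topology Finset
open scoped ENNReal

theorem exists_derivation (α : ℝ) (hα : ¬ IsAlgebraic ℚ α) :
    ∃ D : Derivation ℚ ℝ ℝ, D α ≠ 0 :=
  G.exists_der α hα

/-- a finite family all of whose derivation deformations are trivial is projectively algebraic -/
theorem projAlg_of_triv {n : ℕ} {ι : Type} (J : Finset ι) (f : ι → H n)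
    (h : ∀ D : Derivation ℚ ℝ ℝ, ∃ γ : H n →ₗ[ℝ] H n, ∀ l ∈ J,
      ((fun k => D ((f l).1 k)), D (f l).2) = triv γ (f l)) :
    ∃ g : H n ≃ₗ[ℝ] H n, ∀ l ∈ J, ∃ c : ℝ, c ≠ 0 ∧ IsAlg (c • g (f l)) :=
  G.projAlg J f h

theorem Sys.projAlg (S : Sys) {A : Set (S.Ω × ℕ)} (hA : S.LineSet A) {n : ℕ}
    {ν : S.Ω × ℕ → E n} (hν : S.Marks A ν) (h : S.Rigid A ν) : S.ProjAlg A ν :=
  G.sys_projAlg S hν h

end ECub
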