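import Pool.Agent.P.MP_029dcd_co.F.Defs
import Pool.Agent.P.MP_029dcd_co.F.M.Glob

/-! Layer M: algebra and analysis of the laws of marks. -/

set_option autoImplicit false

namespace ECub

open CubicStab MeasureTheory Filter Topology Finset
open scoped ENNReal

/-- the number of independent marks is bounded -/
theorem dim_bound (C0 c1 Mx : NNReal) : ∃ M0 : ℕ, ∀ (n : ℕ) (m : Fin 3 → Measure (E n))
    (κ : Measure (Fin 3 → E n)), MS0 m κ C0 c1 → (∀ i, m i Set.univ ≤ Mx) → n ≤ M0 := by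
  exact M.dim_bound C0 c1 Mx

variable {n : ℕ} {m : Fin 3 → Measure (E n)} {κ : Measure (Fin 3 → E n)} {C0 c1 : NNReal}
  {b c : Fin 3}

/-- the eigenvector equation along a pencil of matrices -/
theorem MS.alg (h : MS m κ C0 c1 b c) (M0 M1 : Matrix (Fin (n + 2)) (Fin (n + 2)) ℝ)
    (hM : ∀ i, ∀ᵐ ν ∂(m i), ∃ z : ℝ, M0.mulVec ν + ν 1 • M1.mulVec ν = z • ν) :
    ∃ (z0 z1 : ℝ) (y : E n), (∀ k j, M1 k j = (if k = j then z1 else 0) +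
        (if j = 0 then y k else 0)) ∧
      ∀ k j, M0 k j = (if k = j then z0 else 0) - (if j = 1 then y k else 0) := by
  exact M.alg M0 M1 h hM

theorem MS.ker (h : MS m κ C0 c1 b c) (A B : E n)
    (hAB : ∀ i, ∀ᵐ ν ∂(m i), A ⬝ᵥ ν + ν 1 * (B ⬝ᵥ ν) = 0) :
    ∃ e : ℝ, (∀ j, B j = if j = 0 then e else 0) ∧ ∀ j, A j = if j = 1 then -e else 0 := by
  exact M.ker h A B hAB

/-- a positive semidefinite form that vanishes on almost all pairs of marks is zero -/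
theorem MS.cov_zero (h : MS m κ C0 c1 b c) (Sg : Matrix (Fin (n + 2)) (Fin (n + 2)) ℝ)
    (hSg : Sg.PosSemidef)
    (hb : ∀ᵐ y ∂((m b).prod (m b)), y.1 1 ≠ y.2 1 → y.1 ⬝ᵥ Sg.mulVec y.2 = 0)
    (hc : ∀ᵐ y ∂((m c).prod (m c)), y.1 1 ≠ y.2 1 → y.1 ⬝ᵥ Sg.mulVec y.2 = 0) : Sg = 0 := by
  exact M.cov_zero h Sg hSg hb hc

/-- the slope component of a macroscopic deformation -/
theorem MS0.span (h : MS0 m κ C0 c1) (q : ℝ) (φ σ : Fin 3 → E n × ℝ → ℝ)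
    (hφ : ∀ i, Measurable (φ i)) (hσ : ∀ i, Measurable (σ i))
    (hb : ∃ B : ℝ, ∀ i y, |φ i y| ≤ B ∧ |σ i y| ≤ B)
    (K : ℝ × ℝ → E n) (hK : Measurable K) (hKb : ∃ B : ℝ, ∀ X, ‖K X‖ ≤ B)
    (hrel : ∀ i, ∀ᵐ y ∂((volume.restrict (Q q)).prod (m i)),
      σ i (y.2, y.1.2 - y.2 1 * y.1.1) + y.1.1 * φ i (y.2, y.1.2 - y.2 1 * y.1.1)
        = K y.1 ⬝ᵥ y.2) :
    ∃ h1 h2 : ℝ × ℝ → E n, Measurable h1 ∧ Measurable h2 ∧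
      (∃ B : ℝ, ∀ X, ‖h1 X‖ ≤ B ∧ ‖h2 X‖ ≤ B) ∧
      ∀ i, ∀ᵐ y ∂((volume.restrict (Q q)).prod (m i)),
        φ i (y.2, y.1.2 - y.2 1 * y.1.1) = h1 y.1 ⬝ᵥ y.2 + y.2 1 * (h2 y.1 ⬝ᵥ y.2) := by
  exact M.span h q φ σ hφ hb K hK hKb hrel

/-- macroscopic deformations are trivial -/
theorem MS.global (h : MS m κ C0 c1 b c) (q q' : ℝ) (hq' : 0 < q') (hq : q' < q)
    (u : Fin 3 → E n × ℝ → H n) (hu : ∀ i, Measurable (u i)) (hb : ∃ B : ℝ, ∀ i y, ‖u i y‖ ≤ B)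
    (K : Fin (n + 2) → ℝ × ℝ → E n) (Cc : ℝ × ℝ → E n) (hK : ∀ k, Measurable (K k))
    (hC : Measurable Cc) (hKb : ∃ B : ℝ, ∀ X, (∀ k, ‖K k X‖ ≤ B) ∧ ‖Cc X‖ ≤ B)
    (hrel : ∀ i, ∀ᵐ y ∂((volume.restrict (Q q)).prod (m i)),
      (∀ k, (u i (y.2, y.1.2 - y.2 1 * y.1.1)).1 k
        = -(y.2 k) * (K 0 y.1 ⬝ᵥ y.2) + K k y.1 ⬝ᵥ y.2) ∧
      (u i (y.2, y.1.2 - y.2 1 * y.1.1)).2 + y.1.1 * (u i (y.2, y.1.2 - y.2 1 * y.1.1)).1 1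
        = Cc y.1 ⬝ᵥ y.2) :
    ∃ γ : H n →ₗ[ℝ] H n, ∀ i, ∀ᵐ y ∂((volume.restrict (Q q')).prod (m i)),
      u i (y.2, y.1.2 - y.2 1 * y.1.1) = triv γ (y.2, y.1.2 - y.2 1 * y.1.1) := by
  exact M.global h q q' hq u K Cc hK hC hKb hrel

end ECub
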