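import Pool.Agent.P.MP_029dcd_co.F.LayB
import Pool.Agent.P.MP_029dcd_co.F.LayD
import Pool.Agent.P.MP_029dcd_co.F.LayE
import Pool.Agent.P.MP_029dcd_co.F.N.Asm

/-! Layer N: the limit system of a sequence of counterexamples. -/

set_option autoImplicit false

namespace ECub

open CubicStab MeasureTheory Filter Topology Finset
open scoped ENNReal

theorem layerN (h : ¬ ThmI) :
    ∃ S : Sys, S.toDyn.Erg ∧ S.μ {ω | (S.Γ ω).tp 0 = true} ≠ 0 := N.layerN h

end ECub
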