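import Pool.Agent.P.MP_029dcd_co.F.LayT
import Pool.Agent.P.MP_029dcd_co.F.LayM
import Pool.Agent.P.MP_029dcd_co.F.R.TanR
import Pool.Agent.P.MP_029dcd_co.F.R.Rig

/-! Layer R: infinitesimal rigidity. -/

set_option autoImplicit false

namespace ECub

open CubicStab MeasureTheory Filter Topology Finset
open scoped ENNReal

/-- the deformation carried by a tangent system is trivial -/
theorem Tan.rigid {S : Sys} (hS : S.toDyn.Erg) {Λ : (ℝ × ℝ) ≃L[ℝ] (ℝ × ℝ)} (hΛ : S.Lin Λ)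
    {A : Set (S.Ω × ℕ)} (hA : S.LineSet A) {n : ℕ} {ν : S.Ω × ℕ → E n} (hν : S.Marks A ν)
    {C0 c1 : NNReal} {b c : Fin 3} (hms : MS (S.mA A ν) (S.κA A ν) C0 c1 b c)
    (hmax : S.MaxP A ν) (τ : Tan S Λ A ν 1)
    (h0 : ∀ i, ∀ᵐ d ∂(τ.nm i), d.2.2.1 0 = 0)
    (hrel : ∀ᵐ x ∂τ.D.μ, τ.π x ∈ S.TA A → XiRel (fun i => ν (S.tx (τ.π x) i)) (τ.X x).1
      fun i => τ.h (x, (S.Γ (τ.π x)).tl 0 i)) :
    ∃ γ : H n →ₗ[ℝ] H n, ∀ i, ∀ᵐ d ∂(τ.nm i),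
      (∃ x : ℝ, (x, d.2.1 + d.1 1 * x) ∈ Q (19 / 20)) → d.2.2 = triv γ (d.1, d.2.1) :=
  R.tan_rigid hS hΛ hA hν hms hmax τ h0 hrel

theorem Sys.rigid (S : Sys) (hS : S.toDyn.Erg) {Λ : (ℝ × ℝ) ≃L[ℝ] (ℝ × ℝ)} (hΛ : S.Lin Λ)
    {A : Set (S.Ω × ℕ)} (hA : S.LineSet A) {n : ℕ} {ν : S.Ω × ℕ → E n} (hν : S.Marks A ν)
    {C0 c1 : NNReal} {b c : Fin 3} (hcore : S.Core A c1)
    (hms : MS (S.mA A ν) (S.κA A ν) C0 c1 b c) (hmax : S.MaxP A ν) : S.Rigid A ν :=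
  R.sys_rigid S hS hΛ hA hν hms.c1_pos hcore fun τ h0 hrel =>
    Tan.rigid hS hΛ hA hν hms hmax τ h0 hrel

end ECub
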