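import Pool.Agent.P.MP_029dcd_co.F.S1.Atoms

/-! Layer S1: atoms of the laws of the slopes. -/

set_option autoImplicit false

namespace ECub

open CubicStab MeasureTheory Filter Topology Finset
open scoped ENNReal

theorem Sys.noRatio (S : Sys) (hS : S.toDyn.Erg) {Λ : (ℝ × ℝ) ≃L[ℝ] (ℝ × ℝ)} (hΛ : S.Lin Λ) :
    S.NoRatio :=
  S1.noRatio S hS hΛ

theorem Sys.two_atoms (S : Sys) (hS : S.toDyn.Erg) {Λ : (ℝ × ℝ) ≃L[ℝ] (ℝ × ℝ)} (hΛ : S.Lin Λ)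
    (i j : Fin 3) (hij : i ≠ j) (a b : ℝ) :
    S.μ {ω | (S.Γ ω).tp 0 = true ∧ S.sl (S.tx ω i) = a ∧ S.sl (S.tx ω j) = b} = 0 :=
  S1.two_atoms S hS hΛ i j hij a b

theorem Sys.stage1 (S : Sys) (hS : S.toDyn.Erg) {Λ : (ℝ × ℝ) ≃L[ℝ] (ℝ × ℝ)} (hΛ : S.Lin Λ)
    (hT : S.μ {ω | (S.Γ ω).tp 0 = true} ≠ 0) :
    ∃ (b c : Fin 3) (A : Set (S.Ω × ℕ)), b ≠ c ∧ S.LineSet A ∧ S.μ (S.TA A) ≠ 0 ∧
      S.NonAt A b ∧ S.NonAt A c :=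
  S1.stage1 S hS hΛ hT

end ECub
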