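import Pool.Agent.P.MP_029dcd_co.F.LayT
import Pool.Agent.P.MP_029dcd_co.F.LayM
import Pool.Agent.P.MP_029dcd_co.F.S2.Max

/-! Layer S2: core, irreducibility and a maximal family of marks. -/

set_option autoImplicit false

namespace ECub

open CubicStab MeasureTheory Filter Topology Finset
open scoped ENNReal

/-- an extension with an irreducible core and a maximal family of marks -/
theorem Sys.stage2 (S : Sys) (hS : S.toDyn.Erg) {Λ : (ℝ × ℝ) ≃L[ℝ] (ℝ × ℝ)} (hΛ : S.Lin Λ)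
    {b c : Fin 3} (hbc : b ≠ c) {A0 : Set (S.Ω × ℕ)} (hA0 : S.LineSet A0)
    (hT : S.μ (S.TA A0) ≠ 0) :
    ∃ (D : Dyn) (π : D.Ω → S.Ω) (hπ : D.Fac S.toDyn π) (A : Set (D.Ω × ℕ)) (n : ℕ)
      (ν : D.Ω × ℕ → E n) (c1 : NNReal), D.Erg ∧ (S.pull D π hπ).LineSet A ∧ A ⊆ pullS π A0 ∧
      D.μ ((S.pull D π hπ).TA A) ≠ 0 ∧ 0 < c1 ∧ (S.pull D π hπ).Core A c1 ∧
      (S.pull D π hπ).Irr A b c ∧ (S.pull D π hπ).Marks A ν ∧ (S.pull D π hπ).Gram A ν ∧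
      (S.pull D π hπ).MaxP A ν := by
  exact S2.stage2 S hS hΛ hbc hA0 hT

theorem msys0 (Λ : (ℝ × ℝ) ≃L[ℝ] (ℝ × ℝ)) : ∃ C0 : NNReal, ∀ (S : Sys), S.toDyn.Erg →
    S.Lin Λ → ∀ (A : Set (S.Ω × ℕ)), S.LineSet A → ∀ (n : ℕ) (ν : S.Ω × ℕ → E n), S.Marks A ν →
      ∀ c1 : NNReal, 0 < c1 → S.Core A c1 → S.Gram A ν →
      MS0 (S.mA A ν) (S.κA A ν) C0 c1 := by
  exact S2.msys0 Λ

theorem Sys.msys (S : Sys) (hS : S.toDyn.Erg) {Λ : (ℝ × ℝ) ≃L[ℝ] (ℝ × ℝ)} (hΛ : S.Lin Λ)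
    {A : Set (S.Ω × ℕ)} (hA : S.LineSet A) {n : ℕ} {ν : S.Ω × ℕ → E n} (hν : S.Marks A ν)
    {c1 : NNReal} (hc1 : 0 < c1) (hcore : S.Core A c1) (hg : S.Gram A ν) {b c : Fin 3}
    (hbc : b ≠ c) (hT : S.μ (S.TA A) ≠ 0) (hb : S.NonAt A b) (hc : S.NonAt A c)
    (hr : S.NoRatio) (hirr : S.Irr A b c) :
    ∃ C0 : NNReal, MS (S.mA A ν) (S.κA A ν) C0 c1 b c := by
  exact S2.msys hS hΛ hA hν hc1 hcore hg hbc hT hb hc hr hirr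

theorem Sys.NonAt.pull {S : Sys} {A0 : Set (S.Ω × ℕ)} (hA0 : MeasurableSet A0) {i : Fin 3}
    (h : S.NonAt A0 i) (D : Dyn) (π : D.Ω → S.Ω) (hπ : D.Fac S.toDyn π) {A : Set (D.Ω × ℕ)}
    (hA : A ⊆ pullS π A0) : (S.pull D π hπ).NonAt A i := by
  have _ := hA0
  exact S2.nonAt_pull h D π hπ hA

end ECub
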