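import Pool.Agent.P.MP_029dcd_co.F.T.Pf
import Pool.Agent.P.MP_029dcd_co.F.T.Equi

/-! Layer T: tangent systems, the product formula and equidistribution of lines. -/

set_option autoImplicit false

namespace ECub

open CubicStab MeasureTheory Filter Topology Finset
open scoped ENNReal

/-- existence of tangent systems -/
theorem Sys.tan_ex (S : Sys) (hS : S.toDyn.Erg) {Λ : (ℝ × ℝ) ≃L[ℝ] (ℝ × ℝ)} (hΛ : S.Lin Λ)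
    {A : Set (S.Ω × ℕ)} (hA : S.LineSet A) {n : ℕ} {ν : S.Ω × ℕ → E n} (hν : S.Marks0 ν)
    (q : ℝ) (hq : 0 < q) :
    ∀ᵐ ω ∂S.μ, ∀ 𝒰 : Ultrafilter ℕ, (𝒰 : Filter ℕ) ≤ atTop → ∀ hu : ℕ → Lb → H n,
      (∀ u l, ‖hu u l‖ ≤ 1) → (∀ u, (S.Γ ω).LineC (hu u)) →
      ∃ τ : Tan S Λ A ν q, τ.Of ω 𝒰 hu :=
  Tn.tan_ex S hS hΛ hA hν q hq

/-- the law of mark and offset under the macroscopic line measure -/
theorem Tan.marg {S : Sys} {Λ : (ℝ × ℝ) ≃L[ℝ] (ℝ × ℝ)} (hΛ : S.Lin Λ) {A : Set (S.Ω × ℕ)}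
    (hA : S.LineSet A) {n : ℕ} {ν : S.Ω × ℕ → E n} (hν : S.Marks0 ν) {q : ℝ} (hq : 0 < q)
    (τ : Tan S Λ A ν q) (i : Fin 3) :
    ((τ.nm i).map fun d => (d.1, d.2.1)).restrict
        {y : E n × ℝ | ∃ x : ℝ, (x, y.2 + y.1 1 * x) ∈ Q q}
      = (((S.mA A ν i).withDensity fun a =>
          ((τ.c : ℝ≥0∞) * volume (Q q) * ENNReal.ofReal (rho Λ i (a 1)))⁻¹).prod volume).restrict
        {y : E n × ℝ | ∃ x : ℝ, (x, y.2 + y.1 1 * x) ∈ Q q} :=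
  Tn.marg hΛ hA hν hq τ i

/-- the product bound for the marks of crossing pairs -/
theorem pf_le (Λ : (ℝ × ℝ) ≃L[ℝ] (ℝ × ℝ)) : ∃ C0 : NNReal, ∀ (S : Sys), S.toDyn.Erg → S.Lin Λ →
    ∀ (A : Set (S.Ω × ℕ)), S.LineSet A → ∀ (n : ℕ) (ν : S.Ω × ℕ → E n), S.Marks0 ν → ∀ i j, i ≠ j →
      ((S.pm i j).restrict {x | (x.1, x.2.1) ∈ A ∧ (x.1, x.2.2) ∈ A}).map
        (fun x => (ν (x.1, x.2.1), ν (x.1, x.2.2))) ≤ C0 • (S.mA A ν i).prod (S.mA A ν j) :=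
  Tn.pf_le Λ

/-- the product bound for sets of lines -/
theorem pf_sets (Λ : (ℝ × ℝ) ≃L[ℝ] (ℝ × ℝ)) : ∃ C0 : NNReal, ∀ (S : Sys), S.toDyn.Erg →
    S.Lin Λ → ∀ i j, i ≠ j → ∀ B B' : Set (S.Ω × ℕ), S.LineSet B → S.LineSet B' →
      S.μ {ω | (S.Γ ω).tp 0 = true ∧ S.tx ω i ∈ B ∧ S.tx ω j ∈ B'} ≤
        C0 * S.mh i B * S.mh j B' :=
  Tn.pf_sets Λ

/-- the product bound for the marks of triple points -/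
theorem pf_kappa (Λ : (ℝ × ℝ) ≃L[ℝ] (ℝ × ℝ)) : ∃ C0 : NNReal, ∀ (S : Sys), S.toDyn.Erg →
    S.Lin Λ → ∀ (A : Set (S.Ω × ℕ)), S.LineSet A → ∀ (n : ℕ) (ν : S.Ω × ℕ → E n), S.Marks0 ν →
      ∀ i j, i ≠ j → (S.κA A ν).map (fun x => (x i, x j)) ≤
        C0 • (S.mA A ν i).prod (S.mA A ν j) :=
  Tn.pf_kappa Λ

/-- equidistribution of marks and offsets of lines -/
theorem Sys.equi (S : Sys) (hS : S.toDyn.Erg) {Λ : (ℝ × ℝ) ≃L[ℝ] (ℝ × ℝ)} (hΛ : S.Lin Λ)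
    {A : Set (S.Ω × ℕ)} (hA : S.LineSet A) {n : ℕ} {ν : S.Ω × ℕ → E n} (hν : S.Marks0 ν)
    (i : Fin 3) : ∃ m : Measure (E n), IsFiniteMeasure m ∧ m ≪ S.mA A ν i ∧ S.mA A ν i ≪ m ∧
      ∀ᵐ ω ∂S.μ, ∀ B : ℝ, 0 < B → ∀ F : BoundedContinuousFunction (E n × ℝ) ℝ,
        (∀ y, B ≤ |y.2| → F y = 0) →
        Tendsto (fun u : ℕ => (∑ l ∈ S.lnsA A ω i (B * (S.Γ ω).R u),
          F (S.ev ν ω l, (S.Γ ω).s l / (S.Γ ω).R u)) / (u : ℝ)) atTop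
          (𝓝 (∫ y, F y ∂(m.prod volume))) :=
  Tn.equi S hS hΛ hA hν i

end ECub
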