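import Pool.Agent.P.MP_029dcd_co.F.U.Gen

/-! Layer U: asymptotic linearity and its consequences (proved in the files of the folder `U`). -/
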