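import Pool.Agent.P.MP_029dcd_co.F.LayB
import Pool.Agent.P.MP_029dcd_co.F.LayT
import Pool.Agent.P.MP_029dcd_co.F.Z.ZFin
import Pool.Agent.P.MP_029dcd_co.F.Z.ZPh1b
import Pool.Agent.P.MP_029dcd_co.F.Z.ZSel1
import Pool.Agent.P.MP_029dcd_co.F.Z.ZSel2

/-! Layer Z: the arithmetic endgame. -/

set_option autoImplicit false

namespace ECub

open CubicStab MeasureTheory Filter Topology Finset ECub.Z
open scoped ENNReal

theorem Sys.endgame (S : Sys) (hS : S.toDyn.Erg) {Λ : (ℝ × ℝ) ≃L[ℝ] (ℝ × ℝ)} (hΛ : S.Lin Λ)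
    {A : Set (S.Ω × ℕ)} (hA : S.LineSet A) {n : ℕ} {ν : S.Ω × ℕ → E n} (hν : S.Marks A ν)
    (hT : S.μ (S.TA A) ≠ 0) {b c : Fin 3} (hbc : b ≠ c) (hb : S.NonAt A b) (hc : S.NonAt A c)
    (halg : S.ProjAlg A ν) : False := by
  classical
  have hna : ∀ {A' A'' : Set (S.Ω × ℕ)} (i : Fin 3), A' ⊆ A'' → S.NonAt A'' i → S.NonAt A' i :=
    fun i h h' t0 => measure_mono_null (Set.inter_subset_inter_left _ h) (h' t0)
  obtain ⟨A1, hA1A, W, hA1, hT1, hW, hnd, hsup⟩ := sel S hA hν hT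
  have hb1 := hna b hA1A hb
  have hc1' := hna c hA1A hc
  obtain ⟨M, B0, hB0sub, hB0m, hB0, hM⟩ :=
    S.mult_event hΛ (S.TA A1) (S.measurableSet_TA hA1.1) (fun ω h => h.1) hT1
  -- first choice of constants
  obtain ⟨c1, C1, hc1, hC1, h1⟩ := pack S hS hΛ hA1 hν.toMarks0 W hW hnd {b, c}
    (fun i hi => by
      rcases mem_insert.1 hi with rfl | hi
      · exact hb1
      · rw [mem_singleton.1 hi]; exact hc1')
    (mh_ne_zero S hA1.1 hT1) _ countable_alg (projAlg_fw S hA1A halg)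
  obtain ⟨ε, e, A0, L, 𝓣, B, -, he, hA0, hL, hs1, hs2, h𝓣, hBloc, -, h2⟩ :=
    h1 (c1 ^ 2 / 10) (by positivity)
  obtain ⟨L', 𝓣', V, hLL, h𝓣', hVm, hV, hVloc⟩ := h2 (S.μ B0 / 2) (ENNReal.half_pos hB0)
  obtain ⟨K1, hK1, 𝓣1, h𝓣1⟩ := exists_numberField (𝓣 ∪ 𝓣') fun τ hτ => by
    rcases mem_union.1 hτ with h | h
    exacts [h𝓣 h, h𝓣' h]
  have hsub1 : ∀ τ ∈ 𝓣 ∪ 𝓣', ∃ x ∈ 𝓣1, cv x = τ := fun τ hτ => by
    rw [← h𝓣1] at hτ
    simpa only [mem_image] using hτ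
  have hB1 : S.μ (B0 ∩ V) ≠ 0 := by
    intro h0
    have h3 : S.μ B0 ≤ S.μ (B0 ∩ V) + S.μ Vᶜ :=
      (measure_mono fun x hx => by
        by_cases hxV : x ∈ V
        exacts [Or.inl ⟨hx, hxV⟩, Or.inr hxV]).trans (measure_union_le (B0 ∩ V) Vᶜ)
    rw [h0, zero_add] at h3
    exact absurd (h3.trans hV) (not_le.2 (ENNReal.half_lt_self hB0 (measure_ne_top _ _)))
  obtain ⟨Ap, hApA1, hAp, hTAp, htouch⟩ := exists_touch S hA1 hVm
  have hB1p : B0 ∩ V ⊆ S.TA Ap := fun x hx => hTAp ⟨hB0sub hx.1, hx.2⟩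
  have hTp : S.μ (S.TA Ap) ≠ 0 := fun h => hB1 (measure_mono_null hB1p h)
  have hWp : ∀ x ∈ Ap, ν x ∈ W ((S.Γ x.1).fam (0, x.2)) := fun x hx => hW x (hApA1 hx)
  have hndp : ∀ i W', W' < W i → S.mA Ap ν i W' = 0 := fun i W' h =>
    le_antisymm ((Measure.map_mono (Measure.restrict_mono hApA1 le_rfl) hν.meas _).trans
      (hnd i W' h).le) zero_le
  -- phase one
  have hph : ∀ᵐ ω ∂S.μ, ∃ g0 : (Ix n → ℝ) ≃ₗ[ℝ] (Ix n → ℝ),
      (∀ l, (S.Γ ω).valid l → aw S Ap ω l → IsRat K1 (g0 (fw S ν ω l))) ∧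
      ∀ w : AbsoluteValue K1 ℝ, IsNonarchimedean w → GoodAt w 𝓣1 1 → ∀ z ∈ cw S (B0 ∩ V) ω,
        ∀ b' : Fin 3 → K1, (∀ i, b' i ≠ 0) →
        ∑ i, b' i • rat K1 (g0 (fw S ν ω ((S.Γ ω).tlab z i))) = 0 → ∀ i j,
        w (b' i) * N0 w (rat K1 (g0 (fw S ν ω ((S.Γ ω).tlab z i))))
          = w (b' j) * N0 w (rat K1 (g0 (fw S ν ω ((S.Γ ω).tlab z j)))) := by
    filter_upwards [env_ae S hA1 hA1A hν hT1 W hW hsup, htouch] with ω env ht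
    obtain ⟨g0, hg1, hg2⟩ := phase1 env hbc 𝓣1 c1 C1 ε e A0 L L' hA0 hL hLL hc1 hC1 he.le
      (by linarith) hs2 (cw S B ω) (cw S V ω)
      (fun z hz => (hBloc ω z hz).mono fun τ hτ => by
        simpa only [mem_image] using hsub1 τ (mem_union_left _ hτ))
      (fun z hz => ⟨(hVloc ω z hz).1.mono fun τ hτ => by
        simpa only [mem_image] using hsub1 τ (mem_union_right _ hτ), (hVloc ω z hz).2⟩)
    refine ⟨g0, fun l hl ha => ?_, fun w hw hw' z hz => ?_⟩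
    · obtain ⟨l', hl', ha', hs, hV'⟩ := ht l hl ha
      rw [env.f_line l l' hl hl' hs]
      exact hg1 l'.1 hV' l' (mem_labs.2 ⟨self_mem_box _ _, hl', ha'⟩)
    · have h3 := (TA_iff S A1 ω z).1 (hB0sub hz.1)
      exact hg2 w hw hw' z hz.2 h3.1 h3.2
  -- second choice of constants
  have : Countable K1 := Finsupp.Countable.of_moduleFinite (R := ℚ)
  obtain ⟨c2, C2, hc2, hC2, h3⟩ := pack S hS hΛ hAp hν.toMarks0 W hWp hndp
    (univ.filter fun i => S.NonAt A1 i) (fun i hi => hna i hApA1 (mem_filter.1 hi).2)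
    (mh_ne_zero S hAp.1 hTp) (Set.range (cv : (Ix n → K1) → Ix n → ℝ)) (Set.countable_range _)
    (by
      filter_upwards [hph] with ω ⟨g0, hg, _⟩ J hJ
      refine ⟨g0, fun l hl => ?_⟩
      obtain ⟨y, r, hr, e1⟩ := hg l (hJ l hl).1 (hJ l hl).2
      exact ⟨_, ⟨y, rfl⟩, r, hr, e1⟩)
  set Sp : Finset (AbsoluteValue K1 ℝ) := (finite_not_goodAt 𝓣1).toFinset ∪
    (Height.AdmissibleAbsValues.archAbsVal (K := K1)).toFinset with hSp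
  have hγ : 0 < (S.μ (B0 ∩ V)).toReal := ENNReal.toReal_pos hB1 (measure_ne_top _ _)
  set γ := (S.μ (B0 ∩ V)).toReal with hγe
  set D : ℝ := 10 * (C2 ^ 2 / c2 ^ 2 + 1 / c2) with hD
  have hDpos : 0 < D := by positivity
  obtain ⟨ε2, e2, A2, L2, 𝓣2, B2, hε2, he2, hA2, hL2, ht1, ht2, h𝓣2, hB2loc, hfar2, -⟩ :=
    h3 (γ / (2 * (Sp.card + 1) * D)) (by positivity)
  obtain ⟨𝓣3, h𝓣3⟩ := exists_preimage_cv 𝓣2 h𝓣2
  obtain ⟨Kc, hKc⟩ := S.few_tp hS hΛ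
  obtain ⟨ω, ⟨⟨⟨⟨g0, hg1, hg2⟩, env⟩, hfar⟩, hdens⟩, hK⟩ :=
    ((((hph.and (env_ae S hAp (hApA1.trans hA1A) hν hTp W hWp hsup)).and hfar2).and
      (dens_ae S hS (hB0m.inter hVm))).and hKc).exists
  refine final_gal env g0 hg1 hbc (univ.filter fun i => S.NonAt A1 i)
    (mem_filter.2 ⟨mem_univ _, hb1⟩) (mem_filter.2 ⟨mem_univ _, hc1'⟩)
    (fun i hi => mem_filter.2 ⟨mem_univ _,
      nonAt_of_top S hA1 hν.toMarks0 hT1 W hW hnd hb1 i hi⟩) Sp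
    (fun w hw => mem_union_right _ (Multiset.mem_toFinset.2 hw)) (cw S (B0 ∩ V) ω)
    (fun z hz => (TA_iff S Ap ω z).1 (hB1p hz))
    (fun w hw hw' => hg2 w (Height.AdmissibleAbsValues.isNonarchimedean w hw) (by
      by_contra h
      exact hw' (mem_union_left _ ((Set.Finite.mem_toFinset _).2 ⟨hw, h⟩))))
    M (fun z hz => hM ω z hz.1) (fun l l' hl hl' r h => eq_of_fw S hν.toMarks0 ω hl hl' h)
    Kc hK γ hγ hdens 𝓣3 c2 C2 ε2 e2 A2 L2 hA2 hL2 hc2 hC2 hε2 he2 ?_ ht2 (cw S B2 ω)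
    (fun z hz => (hB2loc ω z hz).mono fun τ hτ => ?_) hfar
  · have h4 : D * (γ / (2 * (Sp.card + 1) * D)) = γ / 2 / (Sp.card + 1) := by field_simp
    have h5 := mul_le_mul_of_nonneg_left ht1 hDpos.le
    have h6 : (Sp.card : ℝ) * (γ / 2 / (Sp.card + 1)) ≤ γ / 2 := by
      rw [mul_div_assoc', div_le_iff₀ (by positivity)]
      nlinarith
    exact (mul_le_mul_of_nonneg_left (h5.trans h4.le) (Nat.cast_nonneg _)).trans h6
  · rw [← h𝓣3] at hτ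
    simpa only [mem_image] using hτ

end ECub
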