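import Pool.Agent.P.MP_029dcd_co.F.LayC
import Pool.Agent.P.MP_029dcd_co.F.LayN
import Pool.Agent.P.MP_029dcd_co.F.LayS1
import Pool.Agent.P.MP_029dcd_co.F.LayS2
import Pool.Agent.P.MP_029dcd_co.F.LayR
import Pool.Agent.P.MP_029dcd_co.F.LayG
import Pool.Agent.P.MP_029dcd_co.F.LayZ

/-! Assembly. -/

set_option autoImplicit false

namespace ECub

open CubicStab MeasureTheory Filter Topology Finset
open scoped ENNReal

theorem thmI : ThmI := by
  by_contra hI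
  obtain ⟨S, hS, hT⟩ := layerN hI
  obtain ⟨Λ, hΛ⟩ := S.exists_lin hS hT
  obtain ⟨b, c, A0, hbc, hA0, hT0, hb, hc⟩ := S.stage1 hS hΛ hT
  obtain ⟨D, π, hπ, A, n, ν, c1, hD, hA, hsub, hTA, hc1, hcore, hirr, hν, hg, hmax⟩ :=
    S.stage2 hS hΛ hbc hA0 hT0
  have hΛ' := hΛ.pull D π hπ
  have hb' := hb.pull hA0.1 D π hπ hsub
  have hc' := hc.pull hA0.1 D π hπ hsub
  obtain ⟨C0, hms⟩ := (S.pull D π hπ).msys hD hΛ' hA hν hc1 hcore hg hbc hTA hb' hc'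
    ((S.pull D π hπ).noRatio hD hΛ') hirr
  exact (S.pull D π hπ).endgame hD hΛ' hA hν hTA hbc hb' hc'
    ((S.pull D π hπ).projAlg hA hν ((S.pull D π hπ).rigid hD hΛ' hA hν hcore hms hmax))

end ECub
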